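import Pool.Agent.U896.SV.PubL

/-!
Forms with a Cauchy-Schwarz bound: the definition used in the statement.
-/

set_option autoImplicit false

open Set Filter Topology MeasureTheory
open scoped Manifold ContDiff

noncomputable section

namespace Pool.Agent.U896.SQP

open Pool.Agent.Y501.SYP

variable {d : ℕ} {X : Type} [TopologicalSpace X] [ChartedSpace (ES d) X]

/-- Cauchy-Schwarz bound: near `x` there is a constant `B` such that, at the points which are not in
`N`, `σ(v, w)² ≤ B σ(v, Jv) σ(w, Jw)` for all `v` and `w`. (If `σ` is `J`-invariant and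
`σ(v, Jv) ≥ 0` for all `v`, then this holds with `B = 1`.) -/
def CauchySchwarzNear (σ : Form (ES d) X 2) (J : End (ES d) X) (N : Set X) (x : X) : Prop :=
  ∃ B : ℝ, ∀ᶠ y in 𝓝 x, y ∉ N → ∀ v w : TangentSpace 𝓘(ℝ, ES d) y,
    (σ y ![v, w]) ^ 2 ≤ B * (qd σ J y v * qd σ J y w)

end Pool.Agent.U896.SQP
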