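import Pool.Agent.U896.SQ.MainQ
import Pool.Agent.U896.SQ.PubQ
import Pool.Agent.U896.SV.FinalL

/-!
# Forms with a Cauchy-Schwarz bound: the main theorem, with the public definitions
-/

set_option autoImplicit false

open Set Filter Topology MeasureTheory
open scoped Manifold ContDiff

noncomputable section

namespace Pool.Agent.U896.SQP

open Pool.Agent.Y501
open Pool.Agent.Y501.SYP
open Pool.Agent.U896.SWP
open Pool.Agent.U896.SVP

section

variable {d : ℕ} {X : Type} [TopologicalSpace X] [ChartedSpace (ES d) X]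

/-- `J`-invariant nonnegative forms satisfy the Cauchy-Schwarz inequality -/
theorem cs_of_invariant {σ : Form (ES d) X 2} {J : End (ES d) X} {y : X}
    (hJ : ∀ v : TangentSpace 𝓘(ℝ, ES d) y, J y (J y v) = -v)
    (hinv : ∀ v w : TangentSpace 𝓘(ℝ, ES d) y, σ y ![J y v, J y w] = σ y ![v, w])
    (hpos : ∀ v : TangentSpace 𝓘(ℝ, ES d) y, 0 ≤ qd σ J y v)
    (v w : TangentSpace 𝓘(ℝ, ES d) y) :
    (σ y ![v, w]) ^ 2 ≤ qd σ J y v * qd σ J y w := by
  have hadd1 : ∀ a b c : TangentSpace 𝓘(ℝ, ES d) y, σ y ![a + b, c] = σ y ![a, c] + σ y ![b, c] := by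
    intro a b c
    have h := (σ y).map_update_add ![a, c] 0 a b
    have h5 : ∀ u : TangentSpace 𝓘(ℝ, ES d) y, Function.update ![a, c] 0 u = ![u, c] := by
      intro u
      funext i
      fin_cases i <;> simp
    rwa [h5, h5, h5] at h
  have hadd2 : ∀ a b c : TangentSpace 𝓘(ℝ, ES d) y, σ y ![c, a + b] = σ y ![c, a] + σ y ![c, b] := by
    intro a b c
    have h := (σ y).map_update_add ![c, a] 1 a b
    have h5 : ∀ u : TangentSpace 𝓘(ℝ, ES d) y, Function.update ![c, a] 1 u = ![c, u] := by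
      intro u
      funext i
      fin_cases i <;> simp
    rwa [h5, h5, h5] at h
  have hsm1 : ∀ (t : ℝ) (a c : TangentSpace 𝓘(ℝ, ES d) y), σ y ![t • a, c] = t * σ y ![a, c] := by
    intro t a c
    have h := (σ y).map_update_smul ![a, c] 0 t a
    have h5 : ∀ u : TangentSpace 𝓘(ℝ, ES d) y, Function.update ![a, c] 0 u = ![u, c] := by
      intro u
      funext i
      fin_cases i <;> simp
    rwa [h5, h5] at h
  have hsm2 : ∀ (t : ℝ) (a c : TangentSpace 𝓘(ℝ, ES d) y), σ y ![c, t • a] = t * σ y ![c, a] := by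
    intro t a c
    have h := (σ y).map_update_smul ![c, a] 1 t a
    have h5 : ∀ u : TangentSpace 𝓘(ℝ, ES d) y, Function.update ![c, a] 1 u = ![c, u] := by
      intro u
      funext i
      fin_cases i <;> simp
    rwa [h5, h5] at h
  -- the symmetric form
  obtain ⟨g, hg⟩ : ∃ g : TangentSpace 𝓘(ℝ, ES d) y → TangentSpace 𝓘(ℝ, ES d) y → ℝ,
    g = fun a b => σ y ![a, J y b] := ⟨_, rfl⟩
  have hsymm : ∀ a b, g a b = g b a := by
    intro a b
    rw [hg]
    dsimp only
    rw [← hinv a (J y b), hJ b]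
    have h1 : σ y ![J y a, -b] = -σ y ![J y a, b] := by
      have := hsm2 (-1) b (J y a)
      rw [neg_one_smul, neg_one_mul] at this
      exact this
    rw [h1]
    have h2 : σ y ![J y a, b] = -σ y ![b, J y a] := by
      have h3 := (σ y).map_swap ![b, J y a] (i := 0) (j := 1) (by decide)
      have h4 : (![b, J y a] ∘ Equiv.swap (0 : Fin 2) 1) = ![J y a, b] := by
        funext i
        fin_cases i <;> simp
      rw [h4] at h3
      exact h3
    rw [h2, neg_neg]
  have hq : ∀ a, qd σ J y a = g a a := fun a => by rw [hg]; rfl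
  have hgv : g v (J y w) = -σ y ![v, w] := by
    rw [hg]
    dsimp only
    rw [hJ w]
    have := hsm2 (-1) w v
    rw [neg_one_smul, neg_one_mul] at this
    exact this
  have hgw : g (J y w) (J y w) = g w w := by
    rw [hg]
    dsimp only
    exact hinv w (J y w)
  have hquad : ∀ t : ℝ, 0 ≤ g v v + 2 * t * g v (J y w) + t ^ 2 * g w w := by
    intro t
    have h1 := hpos (v + t • J y w)
    rw [hq] at h1
    have h2 : g (v + t • J y w) (v + t • J y w) =
        g v v + 2 * t * g v (J y w) + t ^ 2 * g (J y w) (J y w) := by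
      have e1 : ∀ a b c, g (a + b) c = g a c + g b c := fun a b c => by
        rw [hg]
        exact hadd1 a b (J y c)
      have e2 : ∀ (s : ℝ) a c, g (s • a) c = s * g a c := fun s a c => by
        rw [hg]
        exact hsm1 s a (J y c)
      rw [e1, e2, hsymm v (v + t • J y w), hsymm (J y w) (v + t • J y w), e1, e1, e2, e2,
        hsymm (J y w) v]
      ring
    rw [h2, hgw] at h1
    exact h1
  rw [hq, hq]
  have hw0 : 0 ≤ g w w := by rw [← hq]; exact hpos w
  have hX : (σ y ![v, w]) ^ 2 = (g v (J y w)) ^ 2 := by rw [hgv]; ring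
  rw [hX]
  rcases hw0.lt_or_eq with h | h
  · have h1 := hquad (-(g v (J y w)) / g w w)
    have h2 : g v v + 2 * (-(g v (J y w)) / g w w) * g v (J y w) +
        (-(g v (J y w)) / g w w) ^ 2 * g w w = g v v - g v (J y w) ^ 2 / g w w := by
      field_simp
      ring
    rw [h2, sub_nonneg, div_le_iff₀ h] at h1
    exact h1
  · rw [← h, mul_zero]
    by_contra hne
    have hne' : 0 < g v (J y w) ^ 2 := lt_of_not_ge hne
    have hx : g v (J y w) ≠ 0 := fun h0 => by rw [h0] at hne'; norm_num at hne'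
    have h1 := hquad (-(g v v + 1) / (2 * g v (J y w)))
    rw [← h] at h1
    have h2 : g v v + 2 * (-(g v v + 1) / (2 * g v (J y w))) * g v (J y w) +
        (-(g v v + 1) / (2 * g v (J y w))) ^ 2 * 0 = -1 := by
      field_simp
      ring
    rw [h2] at h1
    norm_num at h1

attribute [local instance] cs mf

theorem sbn_of {σ : Form (ES d) X 2} {J : End (ES d) X} {N : Set X} {x : X}
    (hpos : ∀ x, x ∉ N → ∀ v : TangentSpace 𝓘(ℝ, ES d) x, 0 ≤ qd σ J x v)
    (h : CauchySchwarzNear σ J N x) : SQ.SBn (d := d) (X := X) J σ N x := by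
  obtain ⟨B, h⟩ := h
  refine ⟨|B| + 1, by positivity, ?_⟩
  filter_upwards [h] with y hy hyN v w
  refine (hy hyN v w).trans ?_
  have h1 := hpos y hyN v
  have h2 := hpos y hyN w
  have h3 : 0 ≤ qd σ J y v * qd σ J y w := mul_nonneg h1 h2
  have h4 : B ≤ |B| + 1 := (le_abs_self B).trans (by linarith)
  exact mul_le_mul_of_nonneg_right h4 h3

theorem currentsQ [IsManifold 𝓘(ℝ, ES d) ∞ X] [CompactSpace X] [T2Space X] (hd : 2 ≤ d)
    {a γ : ℝ} (ha : 0 ≤ a) (haγ : a < 2 * γ) (hγ : γ ≤ 1)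
    (J : End (ES d) X) (hJ : IsAlmostComplex J) (K N : Set X) (hK : IsClosed K) (hNK : N ⊆ K)
    (hN : NullSet (d := d) N) (hHol : ∀ x ∈ K, HolderNear γ J x)
    (σ : Form (ES d) X 2) (hσ : ClosedOff σ K) (hi : LocInt σ)
    (hw : WeaklyClosed σ) (hM : MorreyGrowth a σ) (hCS : ∀ x ∈ K, CauchySchwarzNear σ J N x)
    (hpos : ∀ x, x ∉ N → ∀ v : TangentSpace 𝓘(ℝ, ES d) x, 0 ≤ qd σ J x v)
    (hsmall : ∀ z ∈ Crit σ J N, SmallAll J (connectedComponentIn (Crit σ J N) z) z)
    (U : Set X) (hU : IsOpen U) (hKU : K ⊆ U) :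
    ∃ (α : Form (ES d) X 1) (η w : Form (ES d) X 2), IsSmooth α ∧ IsSmooth η ∧ IsD α η ∧
      IsTamingSymplectic w J ∧ ∀ x, x ∉ U → w x = addF σ η x := by
  obtain ⟨α, η, w, h1, h2, h3, h4, h5, h6, h7⟩ := SQ.mainQ (d := d) (X := X) ha haγ hγ hd
    Pool.Agent.Y44.SY.t_IMM Pool.Agent.Y44.SY.t_QB Pool.Agent.Y394.SY.t_SM
    Pool.Agent.Y949.SY.t_PATCH2
    (J := J) (ac_of J hJ) (K := K) (N := N) hK hNK hN (σ := σ)
    (fun V φ hV hφ hp => (hσ V φ ⟨hV, hφ⟩ hp).1)
    (fun V φ hV hφ hp p hpV => (hσ V φ ⟨hV, hφ⟩ hp).2 p hpV)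
    (lc_of hi hw) (mor_of hM) (fun x hx => hol_of (hHol x hx))
    (fun x hx => sbn_of hpos (hCS x hx))
    hpos (fun z hz => smallAll_of hJ (hsmall z hz)) hU hKU
  exact ⟨α, η, w, (smooth_iff α).2 h1, (smooth_iff η).2 h2, (isD_iff α η).2 h3,
    symp_of ((smooth_iff w).2 h4) ((closed_iff w).2 h5) h6, h7⟩

end

end Pool.Agent.U896.SQP
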