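import Pool.Agent.U896.SQ.L3Q
import Pool.Agent.U896.SQ.FinalQ
import Pool.Agent.U896.SC.FinalCL

/-!
# Forms with a Cauchy-Schwarz bound in a prescribed class: the main theorem, with the public
definitions
-/

set_option autoImplicit false

open Set Filter Topology MeasureTheory
open scoped Manifold ContDiff

noncomputable section

namespace Pool.Agent.U896.SQP

open Pool.Agent.Y501
open Pool.Agent.Y501.SYP
open Pool.Agent.U896.SEP
open Pool.Agent.U896.SWP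
open Pool.Agent.U896.SVP
open Pool.Agent.U896.SCP

section

variable {d : ℕ} {X : Type} [TopologicalSpace X] [ChartedSpace (ES d) X]

attribute [local instance] cs mf

theorem currentsCQ [IsManifold 𝓘(ℝ, ES d) ∞ X] [CompactSpace X] [T2Space X] (hd : 2 ≤ d)
    {a γ : ℝ} (ha : 0 ≤ a) (haγ : a < 2 * γ) (hγ : γ ≤ 1)
    (J : End (ES d) X) (hJ : IsAlmostComplex J) (hHol : ∀ x, HolderNear γ J x) (N : Set X)
    (hN : NullSet (d := d) N) (σ₀ : Form (ES d) X 2) (hσ₀ : IsSmooth σ₀) (hσ₀c : IsClosedForm σ₀)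
    (β : Form (ES d) X 1) (σ : Form (ES d) X 2) (hi1 : LocInt1 β) (hi : LocInt σ)
    (hw : WeaklyPlusD σ σ₀ β) (hM : MorreyGrowth a σ) (hCS : ∀ x, CauchySchwarzNear σ J N x)
    (hpos : ∀ x, x ∉ N → ∀ v : TangentSpace 𝓘(ℝ, ES d) x, 0 ≤ qd σ J x v)
    (hsmall : ∀ z ∈ Crit σ J N, SmallAll J (connectedComponentIn (Crit σ J N) z) z) :
    ∃ (α : Form (ES d) X 1) (ρ : Form (ES d) X 2), IsSmooth α ∧ IsSmooth ρ ∧ IsD α ρ ∧
      IsTamingSymplectic (addF σ₀ ρ) J ∧ ∀ τ : Form (ES d) X 2, (∀ x, TamesAt τ J x) →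
        ∀ t : ℝ, 0 ≤ t → t ≤ 1 → NondegForm (segment τ (addF σ₀ ρ) t) := by
  obtain ⟨α, ρ, h1, h2, h3, h4, h5⟩ := SQ.mainCQ (d := d) (X := X) ha haγ hγ hd
    Pool.Agent.Y44.SY.t_IMM Pool.Agent.Y44.SY.t_QB Pool.Agent.Y394.SY.t_SM
    Pool.Agent.Y689.SY.t_HH
    Pool.Agent.Y949.SY.t_PATCH2 Pool.Agent.Y891.SY.t_PATCHP
    (J := J) (ac_of J hJ) (K := univ) (N := N) isClosed_univ (subset_univ N) hN
    (σ₀ := σ₀) ((smooth_iff σ₀).1 hσ₀) ((closed_iff σ₀).1 hσ₀c) (β := β) (σ := σ)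
    (fun V φ hV hφ hp p hpV => absurd (mem_univ _) (hp p hpV))
    (fun V φ hV hφ hp p hpV => absurd (mem_univ _) (hp p hpV))
    (fun V φ hV hφ hp p hpV => absurd (mem_univ _) (hp p hpV))
    (lp_of hσ₀ hi hi1 hw) (mor_of hM) (fun x => hol_of (hHol x))
    (fun x _ => sbn_of hpos (hCS x)) hpos
    (fun z hz => smallAll_of hJ (hsmall z hz))
  have h6 : IsTamingSymplectic (addF σ₀ ρ) J :=
    symp_of ((smooth_iff _).2 (((smooth_iff σ₀).1 hσ₀).add h2)) ((closed_iff _).2 h4) h5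
  exact ⟨α, ρ, (smooth_iff α).2 h1, (smooth_iff ρ).2 h2, (isD_iff α ρ).2 h3, h6,
    fun τ hτ t ht0 ht1 => segment_nondeg hτ h6.tames t ht0 ht1⟩

end

end Pool.Agent.U896.SQP
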