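import Pool.Agent.U896.SV.StepL

/-!
# Forms with a Cauchy-Schwarz bound: the averages
-/

set_option autoImplicit false

open Set Filter Topology MeasureTheory
open scoped Manifold ContDiff ENNReal

noncomputable section

namespace Pool.Agent.U896.SQ

open Pool.Agent.Y501.SY (E Moll S_SM)
open Pool.Agent.Y515.SY
open Pool.Agent.U896
open Pool.Agent.U896.SE hiding sq aff_null
open Pool.Agent.U896.SW
open Pool.Agent.U896.SV

variable {d : ℕ}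

theorem opt {X a b : ℝ} (ha : 0 < a) (hb : 0 < b)
    (h : ∀ l : ℝ, 0 < l → |X| ≤ l * a + l⁻¹ * b) : X ^ 2 ≤ 4 * a * b := by
  have ha' : 0 < Real.sqrt a := Real.sqrt_pos.2 ha
  have hb' : 0 < Real.sqrt b := Real.sqrt_pos.2 hb
  have h1 := h (Real.sqrt b / Real.sqrt a) (by positivity)
  have h2 : Real.sqrt b / Real.sqrt a * a = Real.sqrt a * Real.sqrt b := by
    rw [div_mul_eq_mul_div, div_eq_iff ha'.ne']
    have := Real.mul_self_sqrt ha.le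
    calc Real.sqrt b * a = Real.sqrt b * (Real.sqrt a * Real.sqrt a) := by rw [this]
      _ = _ := by ring
  have h3 : (Real.sqrt b / Real.sqrt a)⁻¹ * b = Real.sqrt a * Real.sqrt b := by
    rw [inv_div, div_mul_eq_mul_div, div_eq_iff hb'.ne']
    have := Real.mul_self_sqrt hb.le
    calc Real.sqrt a * b = Real.sqrt a * (Real.sqrt b * Real.sqrt b) := by rw [this]
      _ = _ := by ring
  rw [h2, h3] at h1
  have h4 : |X| ^ 2 ≤ (Real.sqrt a * Real.sqrt b + Real.sqrt a * Real.sqrt b) ^ 2 :=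
    pow_le_pow_left₀ (abs_nonneg _) h1 2
  rw [sq_abs] at h4
  refine h4.trans (le_of_eq ?_)
  have e1 := Real.sq_sqrt ha.le
  have e2 := Real.sq_sqrt hb.le
  calc (Real.sqrt a * Real.sqrt b + Real.sqrt a * Real.sqrt b) ^ 2
      = 4 * Real.sqrt a ^ 2 * Real.sqrt b ^ 2 := by ring
    _ = _ := by rw [e1, e2]

theorem cs1 {X a b B l : ℝ} (ha : 0 ≤ a) (hb : 0 ≤ b) (hB : 0 ≤ B) (hl : 0 < l)
    (h : X ^ 2 ≤ B * (a * b)) : |X| ≤ l / 2 * a + B / 2 * l⁻¹ * b := by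
  have h0 : 0 ≤ l / 2 * a + B / 2 * l⁻¹ * b := by positivity
  refine abs_le_of_sq_le_sq (h.trans ?_) h0
  have h1 : l * l⁻¹ = 1 := mul_inv_cancel₀ hl.ne'
  have h2 : 0 ≤ (l / 2 * a - B / 2 * l⁻¹ * b) ^ 2 := sq_nonneg _
  calc B * (a * b) = 4 * (l * l⁻¹) * (1 / 2 * a * (B / 2 * b)) := by rw [h1]; ring
    _ = 4 * (l / 2 * a * (B / 2 * l⁻¹ * b)) := by ring
    _ ≤ (l / 2 * a - B / 2 * l⁻¹ * b) ^ 2 + 4 * (l / 2 * a * (B / 2 * l⁻¹ * b)) := by linarith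
    _ = _ := by ring

/-- the pointwise estimate -/
theorem ptQ {Φ : Al d 2} {T P R : E d →L[ℝ] E d} {c κ B S : ℝ} (hc : 0 < c) (hB : 0 ≤ B)
    (hκ0 : 0 ≤ κ) (hS0 : 0 ≤ S) (hκ : ‖T.comp P - R.comp T‖ ≤ κ)
    (hR : ‖R‖ ≤ S) (hpos : ∀ v, c * ‖v‖ ^ 2 ≤ Φ ![v, R v])
    (hsb : ∀ v w, (Φ ![v, w]) ^ 2 ≤ B * (Φ ![v, R v] * Φ ![w, R w])) (v : E d) :
    Φ ![T v, R (T v)] ≤ 2 * Φ ![T v, T (P v)] + B * S * κ ^ 2 * ‖v‖ ^ 2 * ‖Φ‖ := by
  have hnn : ∀ v, 0 ≤ Φ ![v, R v] := fun v => le_trans (by positivity) (hpos v)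
  have hdec : Φ ![T v, T (P v)] = Φ ![T v, R (T v)] + Φ ![T v, T (P v) - R (T v)] := by
    have h4 := Φ.map_update_add ![T v, 0] 1 (R (T v)) (T (P v) - R (T v))
    have h5 : ∀ w : E d, Function.update ![T v, 0] 1 w = ![T v, w] := by
      intro w
      funext i
      fin_cases i <;> simp
    rw [h5, h5, h5, add_sub_cancel] at h4
    exact h4
  obtain ⟨u, hu⟩ : ∃ u, u = T (P v) - R (T v) := ⟨_, rfl⟩
  rw [← hu] at hdec
  have hun : ‖u‖ ≤ κ * ‖v‖ := by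
    rw [hu]
    have h6 := ((T.comp P) - (R.comp T)).le_opNorm v
    exact h6.trans (mul_le_mul_of_nonneg_right hκ (norm_nonneg _))
  have h1 := cs1 (l := 1) (hnn (T v)) (hnn u) hB one_pos (hsb (T v) u)
  have h2 : Φ ![u, R u] ≤ S * κ ^ 2 * ‖v‖ ^ 2 * ‖Φ‖ := by
    have h3 := (Φ).le_opNorm ![u, R u]
    rw [Fin.prod_univ_two] at h3
    have h4 : ‖(![u, R u] : Fin 2 → E d) 0‖ * ‖(![u, R u] : Fin 2 → E d) 1‖ ≤
        (κ * ‖v‖) * (S * (κ * ‖v‖)) := by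
      refine mul_le_mul hun ?_ (norm_nonneg _) (by positivity)
      refine (R.le_opNorm u).trans ?_
      exact mul_le_mul hR hun (norm_nonneg _) hS0
    calc Φ ![u, R u] ≤ ‖Φ ![u, R u]‖ := le_abs_self _
      _ ≤ _ := h3
      _ ≤ ‖Φ‖ * ((κ * ‖v‖) * (S * (κ * ‖v‖))) := mul_le_mul_of_nonneg_left h4 (norm_nonneg _)
      _ = _ := by ring
  have h5 := (abs_le.1 h1).1
  rw [inv_one, mul_one] at h5
  have h6 : B / 2 * Φ ![u, R u] ≤ B / 2 * (S * κ ^ 2 * ‖v‖ ^ 2 * ‖Φ‖) :=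
    mul_le_mul_of_nonneg_left h2 (by positivity)
  have h7 : B * S * κ ^ 2 * ‖v‖ ^ 2 * ‖Φ‖ = 2 * (B / 2 * (S * κ ^ 2 * ‖v‖ ^ 2 * ‖Φ‖)) := by ring
  rw [hdec, h7]
  linarith

/-- the averages are uniformly taming and have a Cauchy-Schwarz bound -/
theorem JJ_Q {ρ χ : E d → ℝ} {ε : ℝ} (hρ : Moll ε ρ) {Φ : E d → Al d 2}
    (hΦ : Integrable Φ) {Js : E d → (E d →L[ℝ] E d)} {c D κ B S : ℝ} (hc : 0 < c) (hB : 0 < B)
    (hS : 0 ≤ S) (hκ0 : 0 ≤ κ) {p : E d} (hp : 0 < χ p)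
    (hD : ‖fderiv ℝ χ p‖ ≤ D) (hDε : D * ε ≤ 1 / 2)
    (hκ : B / 2 * S * κ ^ 2 * (∫ y, ρ y * ‖Φ (p + χ p • y)‖) ≤ c / 16)
    (hpos : ∀ᵐ y : E d, ‖y‖ < ε →
      ‖(LL (fderiv ℝ χ p) y).comp (Js p) - (Js (p + χ p • y)).comp (LL (fderiv ℝ χ p) y)‖ ≤ κ ∧
      ‖Js (p + χ p • y)‖ ≤ S ∧
      (∀ v : E d, c * ‖v‖ ^ 2 ≤ Φ (p + χ p • y) ![v, Js (p + χ p • y) v]) ∧
      ∀ v w : E d, (Φ (p + χ p • y) ![v, w]) ^ 2 ≤
        B * (Φ (p + χ p • y) ![v, Js (p + χ p • y) v] *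
          Φ (p + χ p • y) ![w, Js (p + χ p • y) w])) :
    (∀ v : E d, c / 16 * ‖v‖ ^ 2 ≤ JJ ρ χ Φ p ![v, Js p v]) ∧
    ∀ v w : E d, (JJ ρ χ Φ p ![v, w]) ^ 2 ≤
      16 * B * (JJ ρ χ Φ p ![v, Js p v] * JJ ρ χ Φ p ![w, Js p w]) := by
  have hD0 : 0 ≤ D := (norm_nonneg _).trans hD
  have hρc := moll_cs hρ
  have hn : Integrable (fun q => ‖Φ q‖) := hΦ.norm
  have hA : Integrable (fun y => ρ y * ‖Φ (p + χ p • y)‖) :=
    II_int' (χ := χ) hρ.smooth.continuous hρc hn hp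
  obtain ⟨I, hI⟩ : ∃ I, I = ∫ y, ρ y * ‖Φ (p + χ p • y)‖ := ⟨_, rfl⟩
  rw [← hI] at hκ
  obtain ⟨M, hM⟩ : ∃ M : E d → ℝ, M = fun v => JJ ρ χ Φ p ![v, Js p v] := ⟨_, rfl⟩
  obtain ⟨g, hg⟩ : ∃ g : E d → E d → E d → ℝ, g = fun v w y =>
    ρ y * Φ (p + χ p • y) ![v + fderiv ℝ χ p v • y, w + fderiv ℝ χ p w • y] := ⟨_, rfl⟩
  have hgi : ∀ v w, Integrable (g v w) := by
    intro v w
    rw [hg]
    exact JJ_apply_int' (χ := χ) hρ.smooth.continuous hρc hΦ hp v w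
  have hgJ : ∀ v w, JJ ρ χ Φ p ![v, w] = ∫ y, g v w y := by
    intro v w
    rw [JJ_apply' hρ.smooth.continuous hρc hΦ hp, hg]
  have hMg : ∀ v, M v = ∫ y, g v (Js p v) y := by
    intro v
    rw [hM]
    exact hgJ v (Js p v)
  -- the pointwise estimates
  have hae : ∀ᵐ y : E d, (∀ v : E d, ρ y * (c / 8 * ‖v‖ ^ 2) -
      B / 2 * S * κ ^ 2 * ‖v‖ ^ 2 * (ρ y * ‖Φ (p + χ p • y)‖) ≤ g v (Js p v) y) ∧
      ∀ (v w : E d) (l : ℝ), 0 < l → |g v w y| ≤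
        l * (g v (Js p v) y + B / 2 * S * κ ^ 2 * ‖v‖ ^ 2 * (ρ y * ‖Φ (p + χ p • y)‖)) +
        B * l⁻¹ * (g w (Js p w) y + B / 2 * S * κ ^ 2 * ‖w‖ ^ 2 * (ρ y * ‖Φ (p + χ p • y)‖)) := by
    filter_upwards [hpos] with y hy
    by_cases hyε : ‖y‖ < ε
    · obtain ⟨h2, h2', h3, h3'⟩ := hy hyε
      obtain ⟨q, hq⟩ : ∃ q, q = p + χ p • y := ⟨_, rfl⟩
      rw [← hq] at h2 h2' h3 h3'
      obtain ⟨T, hT⟩ : ∃ T, T = LL (fderiv ℝ χ p) y := ⟨_, rfl⟩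
      rw [← hT] at h2
      have hT1 : ∀ v, v + fderiv ℝ χ p v • y = T v := by intro v; rw [hT]; rfl
      have hgT : ∀ v w, g v w y = ρ y * Φ q ![T v, T w] := by
        intro v w
        rw [hg]
        dsimp only
        rw [hT1, hT1, ← hq]
      have h9 := hρ.nonneg y
      have hTl : ∀ v, ‖v‖ / 2 ≤ ‖T v‖ := by
        intro v
        have hTv : ‖T v - v‖ ≤ 1 / 2 * ‖v‖ := by
          have h4 : T v - v = fderiv ℝ χ p v • y := by rw [← hT1, add_sub_cancel_left]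
          rw [h4, norm_smul]
          calc ‖fderiv ℝ χ p v‖ * ‖y‖ ≤ (D * ‖v‖) * ε := by
                refine mul_le_mul ?_ hyε.le (norm_nonneg _) (by positivity)
                exact (ContinuousLinearMap.le_opNorm _ _).trans
                  (mul_le_mul_of_nonneg_right hD (norm_nonneg _))
            _ = D * ε * ‖v‖ := by ring
            _ ≤ 1 / 2 * ‖v‖ := by gcongr
        have h4 := norm_sub_norm_le v (T v)
        rw [norm_sub_rev] at h4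
        linarith
      have hlow1 : ∀ v, c / 4 * ‖v‖ ^ 2 ≤ Φ q ![T v, Js q (T v)] := by
        intro v
        refine le_trans ?_ (h3 (T v))
        have h4 : (‖v‖ / 2) ^ 2 ≤ ‖T v‖ ^ 2 := pow_le_pow_left₀ (by positivity) (hTl v) 2
        calc c / 4 * ‖v‖ ^ 2 = c * (‖v‖ / 2) ^ 2 := by ring
          _ ≤ _ := by gcongr
      have hnn : ∀ v, 0 ≤ Φ q ![v, Js q v] := fun v => le_trans (by positivity) (h3 v)
      have hpt : ∀ v, Φ q ![T v, Js q (T v)] ≤ 2 * Φ q ![T v, T (Js p v)] +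
          B * S * κ ^ 2 * ‖v‖ ^ 2 * ‖Φ q‖ := fun v => ptQ hc hB.le hκ0 hS h2 h2' h3 h3' v
      rw [← hq]
      refine ⟨fun v => ?_, fun v w l hl => ?_⟩
      · rw [hgT]
        have h5 := hlow1 v
        have h6 := hpt v
        have h7 : c / 8 * ‖v‖ ^ 2 - B / 2 * S * κ ^ 2 * ‖v‖ ^ 2 * ‖Φ q‖ ≤
            Φ q ![T v, T (Js p v)] := by
          have h8 : B * S * κ ^ 2 * ‖v‖ ^ 2 * ‖Φ q‖ =
            2 * (B / 2 * S * κ ^ 2 * ‖v‖ ^ 2 * ‖Φ q‖) := by ring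
          rw [h8] at h6
          have h10 : c / 4 * ‖v‖ ^ 2 = 2 * (c / 8 * ‖v‖ ^ 2) := by ring
          rw [h10] at h5
          linarith
        calc ρ y * (c / 8 * ‖v‖ ^ 2) - B / 2 * S * κ ^ 2 * ‖v‖ ^ 2 * (ρ y * ‖Φ q‖)
            = ρ y * (c / 8 * ‖v‖ ^ 2 - B / 2 * S * κ ^ 2 * ‖v‖ ^ 2 * ‖Φ q‖) := by ring
          _ ≤ _ := mul_le_mul_of_nonneg_left h7 h9
      · rw [hgT, hgT, hgT, abs_mul, abs_of_nonneg h9]
        have h4 := cs1 (hnn (T v)) (hnn (T w)) hB.le hl (h3' (T v) (T w))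
        have h5 : |Φ q ![T v, T w]| ≤
            l * (Φ q ![T v, T (Js p v)] + B / 2 * S * κ ^ 2 * ‖v‖ ^ 2 * ‖Φ q‖) +
            B * l⁻¹ * (Φ q ![T w, T (Js p w)] + B / 2 * S * κ ^ 2 * ‖w‖ ^ 2 * ‖Φ q‖) := by
          refine h4.trans ?_
          have e1 : l / 2 * Φ q ![T v, Js q (T v)] ≤ l / 2 * (2 * Φ q ![T v, T (Js p v)] +
              B * S * κ ^ 2 * ‖v‖ ^ 2 * ‖Φ q‖) :=
            mul_le_mul_of_nonneg_left (hpt v) (by positivity)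
          have e2 : B / 2 * l⁻¹ * Φ q ![T w, Js q (T w)] ≤ B / 2 * l⁻¹ *
              (2 * Φ q ![T w, T (Js p w)] + B * S * κ ^ 2 * ‖w‖ ^ 2 * ‖Φ q‖) :=
            mul_le_mul_of_nonneg_left (hpt w) (by positivity)
          calc _ ≤ _ := add_le_add e1 e2
            _ = _ := by ring
        calc ρ y * |Φ q ![T v, T w]| ≤ ρ y * (l * (Φ q ![T v, T (Js p v)] +
            B / 2 * S * κ ^ 2 * ‖v‖ ^ 2 * ‖Φ q‖) +
            B * l⁻¹ * (Φ q ![T w, T (Js p w)] + B / 2 * S * κ ^ 2 * ‖w‖ ^ 2 * ‖Φ q‖)) :=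
              mul_le_mul_of_nonneg_left h5 h9
          _ = _ := by ring
    · have h0 : ρ y = 0 := hρ.supp y (not_lt.1 hyε)
      have hg0 : ∀ v w, g v w y = 0 := by
        intro v w
        rw [hg]
        dsimp only
        rw [h0, zero_mul]
      refine ⟨fun v => ?_, fun v w l _ => ?_⟩
      · rw [hg0, h0]
        simp
      · rw [hg0, hg0, hg0, h0]
        simp
  have hlb : ∀ v, c / 8 * ‖v‖ ^ 2 - B / 2 * S * κ ^ 2 * ‖v‖ ^ 2 * I ≤ M v := by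
    intro v
    have hlow : Integrable (fun y => ρ y * (c / 8 * ‖v‖ ^ 2) -
        B / 2 * S * κ ^ 2 * ‖v‖ ^ 2 * (ρ y * ‖Φ (p + χ p • y)‖)) :=
      ((moll_int hρ).mul_const _).sub (hA.const_mul _)
    have h2 := integral_mono_ae hlow (hgi v (Js p v)) (hae.mono fun y hy => hy.1 v)
    rw [hMg]
    refine le_trans (le_of_eq ?_) h2
    rw [integral_sub ((moll_int hρ).mul_const _) (hA.const_mul _), integral_mul_const, hρ.int,
      integral_const_mul, one_mul, ← hI]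
  have hE : ∀ v : E d, B / 2 * S * κ ^ 2 * ‖v‖ ^ 2 * I ≤ c / 16 * ‖v‖ ^ 2 := by
    intro v
    calc B / 2 * S * κ ^ 2 * ‖v‖ ^ 2 * I = (B / 2 * S * κ ^ 2 * I) * ‖v‖ ^ 2 := by ring
      _ ≤ _ := by gcongr
  have hM1 : ∀ v, c / 16 * ‖v‖ ^ 2 ≤ M v := by
    intro v
    have h1 := hlb v
    have h2 := hE v
    have h3 : c / 8 * ‖v‖ ^ 2 = c / 16 * ‖v‖ ^ 2 + c / 16 * ‖v‖ ^ 2 := by ring
    rw [h3] at h1
    linarith
  have hM2 : ∀ v w : E d, (JJ ρ χ Φ p ![v, w]) ^ 2 ≤ 16 * B * (M v * M w) := by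
    intro v w
    by_cases hv : v = 0
    · have h1 : JJ ρ χ Φ p ![v, w] = 0 := by
        rw [hv]
        exact (JJ ρ χ Φ p).map_coord_zero 0 rfl
      rw [h1]
      have h2 : 0 ≤ M v := le_trans (by positivity) (hM1 v)
      have h3 : 0 ≤ M w := le_trans (by positivity) (hM1 w)
      have : (0 : ℝ) ^ 2 = 0 := by norm_num
      rw [this]
      positivity
    by_cases hw : w = 0
    · have h1 : JJ ρ χ Φ p ![v, w] = 0 := by
        rw [hw]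
        exact (JJ ρ χ Φ p).map_coord_zero 1 rfl
      rw [h1]
      have h2 : 0 ≤ M v := le_trans (by positivity) (hM1 v)
      have h3 : 0 ≤ M w := le_trans (by positivity) (hM1 w)
      have : (0 : ℝ) ^ 2 = 0 := by norm_num
      rw [this]
      positivity
    have hv0 : 0 < ‖v‖ := norm_pos_iff.2 hv
    have hw0 : 0 < ‖w‖ := norm_pos_iff.2 hw
    have hMv : 0 < M v := lt_of_lt_of_le (by positivity) (hM1 v)
    have hMw : 0 < M w := lt_of_lt_of_le (by positivity) (hM1 w)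
    have h1 : ∀ l : ℝ, 0 < l → |JJ ρ χ Φ p ![v, w]| ≤ l * (2 * M v) + l⁻¹ * (2 * B * M w) := by
      intro l hl
      have hi1 : ∀ u : E d, Integrable (fun y => g u (Js p u) y +
          B / 2 * S * κ ^ 2 * ‖u‖ ^ 2 * (ρ y * ‖Φ (p + χ p • y)‖)) := fun u =>
        (hgi u (Js p u)).add (hA.const_mul _)
      have hv1 : ∀ u : E d, ∫ y, (g u (Js p u) y +
          B / 2 * S * κ ^ 2 * ‖u‖ ^ 2 * (ρ y * ‖Φ (p + χ p • y)‖)) =
          M u + B / 2 * S * κ ^ 2 * ‖u‖ ^ 2 * I := by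
        intro u
        rw [integral_add (hgi u (Js p u)) (hA.const_mul _), integral_const_mul, ← hI, hMg]
      rw [hgJ]
      refine (norm_integral_le_integral_norm (g v w)).trans ?_
      have h2 := integral_mono_ae (hgi v w).norm
        (((hi1 v).const_mul l).add ((hi1 w).const_mul (B * l⁻¹)))
        (hae.mono fun y hy => by
          have h3 := hy.2 v w l hl
          exact h3)
      rw [integral_add' ((hi1 v).const_mul l) ((hi1 w).const_mul (B * l⁻¹)), integral_const_mul,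
        integral_const_mul, hv1, hv1] at h2
      refine h2.trans ?_
      have h5 := (hE v).trans (hM1 v)
      have h6 := (hE w).trans (hM1 w)
      have h7 : 0 < l⁻¹ := inv_pos.2 hl
      have e1 : l * (M v + B / 2 * S * κ ^ 2 * ‖v‖ ^ 2 * I) ≤ l * (2 * M v) :=
        mul_le_mul_of_nonneg_left (by linarith) hl.le
      have e2 : B * l⁻¹ * (M w + B / 2 * S * κ ^ 2 * ‖w‖ ^ 2 * I) ≤ B * l⁻¹ * (2 * M w) :=
        mul_le_mul_of_nonneg_left (by linarith) (by positivity)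
      calc _ ≤ _ := add_le_add e1 e2
        _ = _ := by ring
    have h2 := opt (a := 2 * M v) (b := 2 * B * M w) (by positivity) (by positivity) h1
    refine h2.trans (le_of_eq ?_)
    ring
  rw [hM] at hM1 hM2
  exact ⟨hM1, hM2⟩

end Pool.Agent.U896.SQ
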