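import Pool.Agent.U896.SQ.StepQ
import Pool.Agent.U896.SV.MainL

/-!
# Forms with a Cauchy-Schwarz bound: adding a smooth form
-/

set_option autoImplicit false

open Set Filter Topology MeasureTheory
open scoped Manifold ContDiff ENNReal

noncomputable section

namespace Pool.Agent.U896.SQ

open Pool.Agent.Y501.SY
open Pool.Agent.U896.SW
open Pool.Agent.U896.SV
open Pool.Agent.Y455.SY (A B AB BA A_surj Q Q_eq)
open Pool.Agent.Y929.SY (near ev_of_chart pb_apply2 bdd_near)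

section

variable {d : ℕ} {X : Type} [TopologicalSpace X] [ChartedSpace (E d) X]

/-- the Cauchy-Schwarz bound near `x`, off `N` -/
def SBn (J : End d X) (σ : Form d X 2) (N : Set X) (x : X) : Prop :=
  ∃ B : ℝ, 0 < B ∧ ∀ᶠ y in 𝓝 x, y ∉ N → ∀ v w : TangentSpace (𝓡 d) y,
    (σ y ![v, w]) ^ 2 ≤ B * (σ y ![v, J y v] * σ y ![w, J y w])

theorem sb_glob [CompactSpace X] {J : End d X} {σ : Form d X 2} {N : Set X}
    (hnn : ∀ x, x ∉ N → ∀ v : TangentSpace (𝓡 d) x, 0 ≤ σ x ![v, J x v])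
    (h : ∀ x, SBn J σ N x) : SB J σ N := by
  have key : ∃ B : ℝ, 0 < B ∧ ∀ x ∈ (univ : Set X), x ∉ N → ∀ v w : TangentSpace (𝓡 d) x,
      (σ x ![v, w]) ^ 2 ≤ B * (σ x ![v, J x v] * σ x ![w, J x w]) := by
    refine isCompact_univ.induction_on (p := fun S => ∃ B : ℝ, 0 < B ∧ ∀ x ∈ S, x ∉ N →
      ∀ v w : TangentSpace (𝓡 d) x,
      (σ x ![v, w]) ^ 2 ≤ B * (σ x ![v, J x v] * σ x ![w, J x w])) ?_ ?_ ?_ ?_
    · exact ⟨1, one_pos, fun x hx => absurd hx (notMem_empty x)⟩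
    · rintro S T hST ⟨B, h1, h2⟩
      exact ⟨B, h1, fun x hx => h2 x (hST hx)⟩
    · rintro S T ⟨B, h1, h2⟩ ⟨B', h1', h2'⟩
      refine ⟨B + B', by positivity, ?_⟩
      intro x hx hxN v w
      have n1 := hnn x hxN v
      have n2 := hnn x hxN w
      have n3 : 0 ≤ σ x ![v, J x v] * σ x ![w, J x w] := mul_nonneg n1 n2
      rcases hx with hx | hx
      · refine (h2 x hx hxN v w).trans ?_
        nlinarith
      · refine (h2' x hx hxN v w).trans ?_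
        nlinarith
    · intro x _
      obtain ⟨B, hB, h1⟩ := h x
      exact ⟨_, mem_nhdsWithin_of_mem_nhds h1, B, hB, fun y hy => hy⟩
  obtain ⟨B, hB, h1⟩ := key
  exact ⟨B, hB, fun x => h1 x (mem_univ x)⟩

variable [IsManifold (𝓡 d) ∞ X]

theorem eta_near (hI : S_IMM) (hQ : S_QB) {m : ℕ} (F : X → E m)
    (hF : ContMDiff (𝓡 d) (𝓡 m) ∞ F)
    (hinj : ∀ x, Function.Injective (mfderiv (𝓡 d) (𝓡 m) F x))
    (J : End d X) (hJ : IsAlmostComplex J) (η : Form d X 2) (hη : IsSmooth η) (x₀ : X) :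
    ∃ M : ℝ, 0 < M ∧ ∀ᶠ y in 𝓝 x₀, ∀ v w : TangentSpace (𝓡 d) y,
      |η y ![v, w]| ≤ M * (nm F y v * nm F y w) ∧ |η y ![v, J y v]| ≤ M * nm F y v ^ 2 := by
  have htar : (chartAt (E d) x₀).target ∈ 𝓝 (chartAt (E d) x₀ x₀) :=
    (chartAt (E d) x₀).open_target.mem_nhds (mem_chart_target (E d) x₀)
  obtain ⟨N, hN, hN1, hN2⟩ := near htar
  obtain ⟨c₁, C₁, hc₁, hC₁, hnm⟩ := hI d m X F hF hinj x₀ N hN hN2
  obtain ⟨⟨C₂, hC₂, hb⟩, -⟩ := hQ d X J hJ η hη x₀ N hN hN2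
  refine ⟨C₂ / c₁ ^ 2, by positivity, ev_of_chart (d := d) ?_⟩
  filter_upwards [hN1] with p hp v w
  obtain ⟨v', rfl⟩ := A_surj x₀ (hN2 hp) v
  obtain ⟨w', rfl⟩ := A_surj x₀ (hN2 hp) w
  have h5 : c₁ * ‖v'‖ ≤ nm F ((chartAt (E d) x₀).symm p) (A x₀ p v') := (hnm p hp v').1
  have h6 : c₁ * ‖w'‖ ≤ nm F ((chartAt (E d) x₀).symm p) (A x₀ p w') := (hnm p hp w').1
  constructor
  · have h1 := pb_apply2 η x₀ p v' w'
    rw [← h1]
    have h2 := (pb (chartAt (E d) x₀).symm η p).le_opNorm ![v', w']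
    rw [Fin.prod_univ_two] at h2
    have h3 : |pb (chartAt (E d) x₀).symm η p ![v', w']| ≤ C₂ * (‖v'‖ * ‖w'‖) :=
      h2.trans (mul_le_mul_of_nonneg_right (hb p hp).1 (by positivity))
    refine h3.trans ?_
    calc C₂ * (‖v'‖ * ‖w'‖) = C₂ / c₁ ^ 2 * ((c₁ * ‖v'‖) * (c₁ * ‖w'‖)) := by field_simp
      _ ≤ _ := mul_le_mul_of_nonneg_left (mul_le_mul h5 h6 (by positivity) (norm_nonneg _))
        (by positivity)
  · have h1 := Q_eq η J x₀ (hN2 hp) v'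
    rw [← h1]
    have h3 : |Q η J x₀ p v'| ≤ C₂ * ‖v'‖ ^ 2 := (hb p hp).2.2 v'
    refine h3.trans ?_
    calc C₂ * ‖v'‖ ^ 2 = C₂ / c₁ ^ 2 * (c₁ * ‖v'‖) ^ 2 := by field_simp
      _ ≤ _ := mul_le_mul_of_nonneg_left (pow_le_pow_left₀ (by positivity) h5 2)
        (by positivity)

theorem arith {s0 t0 e0 a b sa sb n m B M c s : ℝ} (hc : 0 < c) (hs : 0 < s) (hB : 0 < B)
    (hM : 0 < M) (hn : 0 ≤ n) (hm : 0 ≤ m) (ht : t0 = s0 + s * e0) (he : |e0| ≤ M * (n * m))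
    (h1 : s0 ^ 2 ≤ B * (sa * sb)) (hsa : 0 ≤ sa) (hsb : 0 ≤ sb)
    (hsa' : sa ≤ a + s * (M * n ^ 2)) (hsb' : sb ≤ b + s * (M * m ^ 2))
    (ha : c * n ^ 2 ≤ a) (hb : c * m ^ 2 ≤ b) :
    t0 ^ 2 ≤ (2 * B * (1 + s * M / c) ^ 2 + 2 * s ^ 2 * M ^ 2 / c ^ 2) * (a * b) := by
  have ha0 : 0 ≤ a := le_trans (by positivity) ha
  have hb0 : 0 ≤ b := le_trans (by positivity) hb
  obtain ⟨L, hL⟩ : ∃ L, L = 1 + s * M / c := ⟨_, rfl⟩
  have hL0 : 0 ≤ L := by rw [hL]; positivity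
  have e1 : sa ≤ L * a := by
    have h2 : s * (M * n ^ 2) ≤ s * M / c * a := by
      calc s * (M * n ^ 2) = s * M / c * (c * n ^ 2) := by field_simp
        _ ≤ _ := mul_le_mul_of_nonneg_left ha (by positivity)
    rw [hL]
    linarith
  have e2 : sb ≤ L * b := by
    have h2 : s * (M * m ^ 2) ≤ s * M / c * b := by
      calc s * (M * m ^ 2) = s * M / c * (c * m ^ 2) := by field_simp
        _ ≤ _ := mul_le_mul_of_nonneg_left hb (by positivity)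
    rw [hL]
    linarith
  have e3 : s0 ^ 2 ≤ B * L ^ 2 * (a * b) := by
    refine h1.trans ?_
    calc B * (sa * sb) ≤ B * ((L * a) * (L * b)) :=
          mul_le_mul_of_nonneg_left (mul_le_mul e1 e2 hsb (by positivity)) hB.le
      _ = _ := by ring
  have e4 : e0 ^ 2 ≤ M ^ 2 / c ^ 2 * (a * b) := by
    have h2 : e0 ^ 2 ≤ (M * (n * m)) ^ 2 := by
      rw [← sq_abs]
      exact pow_le_pow_left₀ (abs_nonneg _) he 2
    refine h2.trans ?_
    calc (M * (n * m)) ^ 2 = M ^ 2 / c ^ 2 * ((c * n ^ 2) * (c * m ^ 2)) := by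
          field_simp
      _ ≤ _ := mul_le_mul_of_nonneg_left (mul_le_mul ha hb (by positivity) ha0) (by positivity)
  have e5 : t0 ^ 2 ≤ 2 * s0 ^ 2 + 2 * s ^ 2 * e0 ^ 2 := by
    rw [ht]
    have := sq_nonneg (s0 - s * e0)
    nlinarith
  refine e5.trans ?_
  rw [← hL]
  have e6 : 2 * s ^ 2 * e0 ^ 2 ≤ 2 * s ^ 2 * (M ^ 2 / c ^ 2 * (a * b)) :=
    mul_le_mul_of_nonneg_left e4 (by positivity)
  calc 2 * s0 ^ 2 + 2 * s ^ 2 * e0 ^ 2 ≤
      2 * (B * L ^ 2 * (a * b)) + 2 * s ^ 2 * (M ^ 2 / c ^ 2 * (a * b)) := by linarith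
    _ = _ := by ring

theorem sb_add (hI : S_IMM) (hQ : S_QB) {m : ℕ} (F : X → E m)
    (hF : ContMDiff (𝓡 d) (𝓡 m) ∞ F)
    (hinj : ∀ x, Function.Injective (mfderiv (𝓡 d) (𝓡 m) F x))
    (J : End d X) (hJ : IsAlmostComplex J) (σ η : Form d X 2) (N : Set X) (hη : IsSmooth η)
    (hnn : ∀ x, x ∉ N → ∀ v : TangentSpace (𝓡 d) x, 0 ≤ σ x ![v, J x v]) {s c : ℝ}
    (hs : 0 < s) (hc : 0 < c)
    (hpos : ∀ y, y ∉ N → ∀ v : TangentSpace (𝓡 d) y,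
      c * nm F y v ^ 2 ≤ (σ + s • η) y ![v, J y v]) (x₀ : X)
    (h : SBn J σ N x₀ ∨ BddAt σ N x₀) : SBn J (σ + s • η) N x₀ := by
  rcases h with ⟨B₁, hB₁, h⟩ | h
  · obtain ⟨M, hM, hη'⟩ := eta_near hI hQ F hF hinj J hJ η hη x₀
    refine ⟨2 * B₁ * (1 + s * M / c) ^ 2 + 2 * s ^ 2 * M ^ 2 / c ^ 2, by positivity, ?_⟩
    filter_upwards [h, hη'] with y hy hyη hyN v w
    have hval : ∀ u u' : TangentSpace (𝓡 d) y,
        (σ + s • η) y ![u, u'] = σ y ![u, u'] + s * η y ![u, u'] := fun u u' => rfl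
    have hle : ∀ u : TangentSpace (𝓡 d) y,
        σ y ![u, J y u] ≤ (σ + s • η) y ![u, J y u] + s * (M * nm F y u ^ 2) := by
      intro u
      have h1 := (abs_le.1 (hyη u u).2).1
      rw [hval]
      nlinarith
    exact arith hc hs hB₁ hM (norm_nonneg _) (norm_nonneg _) (hval v w) (hyη v w).1
      (hy hyN v w) (hnn y hyN v) (hnn y hyN w) (hle v) (hle w) (hpos y hyN v) (hpos y hyN w)
  · obtain ⟨ε, hε, h1⟩ := bdd_near hI hQ F hF hinj J hJ σ η N hη s x₀ h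
    refine ⟨(ε⁻¹ / c) ^ 2, by positivity, ?_⟩
    filter_upwards [h1] with y hy hyN v w
    have h2 := hy hyN v w
    have h3 := hpos y hyN v
    have h4 := hpos y hyN w
    have h5 : |(σ + s • η) y ![v, w]| ≤ ε⁻¹ * (nm F y v * nm F y w) := by
      rw [inv_mul_eq_div, le_div_iff₀ hε, mul_comm]
      exact h2
    have h6 : ((σ + s • η) y ![v, w]) ^ 2 ≤ (ε⁻¹ * (nm F y v * nm F y w)) ^ 2 := by
      rw [← sq_abs]
      exact pow_le_pow_left₀ (abs_nonneg _) h5 2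
    refine h6.trans ?_
    have n1 : 0 ≤ nm F y v := norm_nonneg _
    have n2 : 0 ≤ nm F y w := norm_nonneg _
    calc (ε⁻¹ * (nm F y v * nm F y w)) ^ 2
        = (ε⁻¹ / c) ^ 2 * ((c * nm F y v ^ 2) * (c * nm F y w ^ 2)) := by field_simp
      _ ≤ _ := mul_le_mul_of_nonneg_left (mul_le_mul h3 h4 (by positivity)
        (le_trans (by positivity) h3)) (by positivity)

end

end Pool.Agent.U896.SQ
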