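import Pool.Agent.U896.SQ.AvQ

/-!
# Forms with a Cauchy-Schwarz bound: regularization in a chart
-/

set_option autoImplicit false

open Set Filter Topology MeasureTheory
open scoped Manifold ContDiff ENNReal

noncomputable section

namespace Pool.Agent.U896.SQ

open Pool.Agent.Y501.SY (E Moll S_SM)
open Pool.Agent.Y515.SY
open Pool.Agent.U896
open Pool.Agent.U896.SE hiding sq aff_null
open Pool.Agent.U896.SW
open Pool.Agent.U896.SV

variable {d : ℕ}

theorem regQ (hSM : S_SM) {V k N : Set (E d)} {χ : E d → ℝ}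
    {s : E d → Al d 2} {Js : E d → (E d →L[ℝ] E d)} {c a γ b B H D₁ : ℝ} (hc : 0 < c) (ha : 0 ≤ a)
    (haγ : a < 2 * γ) (hγ : γ ≤ 1) (hab : a ≤ 2 * b) (hB : 0 < B) (hH : 0 ≤ H) (hD₁ : 0 ≤ D₁) (hV : IsOpen V)
    (hVk : IsOpen (V \ k)) (hNk : N ⊆ k)
    (hnull' : ∀ Q : Set (E d), IsCompact Q → Q ⊆ V → volume (N ∩ Q) = 0)
    (hLC : ∀ p ∈ V, LCp s p) (hMor : ∀ p ∈ V, Mor a s p)
    (hχ : ContDiff ℝ ∞ χ) (hχ0 : ∀ p, 0 ≤ χ p) (hχ1 : ∀ p, χ p ≤ 1)
    (hχD : ∀ p, ‖fderiv ℝ χ p‖ ≤ D₁ * χ p ^ b) (hχc : HasCompactSupport χ)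
    (hχV : tsupport χ ⊆ V)
    (hs : ContDiffOn ℝ ∞ s (V \ k)) (hcl : ∀ p ∈ V \ k, extDeriv s p = 0)
    (hJ : ContinuousOn Js V) (hJH : ∀ p ∈ V, ∀ q ∈ V, ‖Js p - Js q‖ ≤ H * ‖p - q‖ ^ γ)
    (hpos : ∀ p ∈ V \ N, ∀ v : E d, c * ‖v‖ ^ 2 ≤ s p ![v, Js p v])
    (hSB : ∀ p ∈ V \ N, ∀ v w : E d, (s p ![v, w]) ^ 2 ≤
      B * (s p ![v, Js p v] * s p ![w, Js p w])) :
    ∃ (s' : E d → Al d 2) (c' : ℝ), 0 < c' ∧
      ContDiffOn ℝ ∞ s' (V \ (k ∩ {p | χ p = 0})) ∧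
      (∀ p ∈ V \ (k ∩ {p | χ p = 0}), extDeriv s' p = 0) ∧
      (∀ p, χ p = 0 → s' p = s p) ∧
      (∀ p ∈ V \ (N ∩ {p | χ p = 0}), ∀ v : E d, c' * ‖v‖ ^ 2 ≤ s' p ![v, Js p v]) ∧
      (∀ p ∈ V \ (N ∩ {p | χ p = 0}), ∀ v w : E d, (s' p ![v, w]) ^ 2 ≤
        16 * B * (s' p ![v, Js p v] * s' p ![w, Js p w])) ∧
      (∀ p ∈ V, LCp s' p) ∧ ∀ p ∈ V, Mor a s' p := by
  obtain ⟨r, hr, hrV⟩ := IsCompact.exists_cthickening_subset_open hχc hV hχV
  set Q : Set (E d) := Metric.cthickening r (tsupport χ) with hQdef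
  have hQ : IsCompact Q := IsCompact.cthickening hχc
  have hNQ : tsupport χ ⊆ Q := Metric.self_subset_cthickening _
  have hGQ : Metric.thickening r (tsupport χ) ⊆ Q := Metric.thickening_subset_cthickening _ _
  -- a uniform radius
  obtain ⟨δ₁, Cm, hδ₁, hCm, hmor⟩ := mor_unif hQ fun p hp => hMor p (hrV hp)
  obtain ⟨δ, hδ, hδr, hδm, hδL⟩ : ∃ δ : ℝ, 0 < δ ∧ δ ≤ r ∧ δ ≤ δ₁ ∧ ∀ p ∈ tsupport χ,
      LCl s (Metric.ball p δ) := by
    choose! R hR0 hR using hLC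
    obtain ⟨δ, hδ, hδ'⟩ := lebesgue_number_lemma_of_metric (s := tsupport χ)
      (c := fun x : V => Metric.ball (x : E d) (R x)) hχc (fun x => Metric.isOpen_ball)
      (fun p hp => mem_iUnion.2 ⟨⟨p, hχV hp⟩, Metric.mem_ball_self (hR0 p (hχV hp))⟩)
    refine ⟨min δ (min r δ₁), lt_min hδ (lt_min hr hδ₁), (min_le_right _ _).trans (min_le_left _ _),
      (min_le_right _ _).trans (min_le_right _ _), fun p hp => ?_⟩
    obtain ⟨x, hx⟩ := hδ' p hp
    exact (hR x x.2).mono ((Metric.ball_subset_ball (min_le_left _ _)).trans hx)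
  have hΦi' : IntegrableOn s Q volume := by
    refine LocallyIntegrableOn.integrableOn_isCompact (fun x hx => ?_) hQ
    obtain ⟨R, hR, hL⟩ := hLC x (hrV hx)
    exact ⟨Metric.ball x R, mem_nhdsWithin_of_mem_nhds (Metric.ball_mem_nhds x hR),
      hL.meas, hasFiniteIntegral_iff_enorm.2 hL.fin⟩
  set Φ : E d → Al d 2 := Q.indicator s with hΦ
  have hΦi : Integrable Φ := by
    rw [hΦ]
    exact (integrable_indicator_iff hQ.measurableSet).2
      ⟨hΦi'.1, hasFiniteIntegral_iff_enorm.2 (hasFiniteIntegral_iff_enorm.1 hΦi'.2)⟩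
  have hΦs : ∀ p ∈ Q, Φ p = s p := fun p hp => indicator_of_mem hp s
  -- constants
  obtain ⟨S₀, hS₀⟩ := hQ.exists_bound_of_continuousOn (hJ.mono hrV)
  set S : ℝ := max S₀ 0 with hSdef
  have hS0 : 0 ≤ S := le_max_right _ _
  have hS : ∀ p ∈ Q, ‖Js p‖ ≤ S := fun p hp => (hS₀ p hp).trans (le_max_left _ _)
  obtain ⟨D, hD⟩ := (hχ.continuous_fderiv (by simp)).bounded_above_of_compact_support
    (hχc.fderiv ℝ)
  have hD0 : 0 ≤ D := (norm_nonneg _).trans (hD 0)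
  obtain ⟨θ, hθ, hdet⟩ := det_near (d := d)
  obtain ⟨A, hA0, hmoll⟩ := moll_bd (d := d)
  obtain ⟨F, hF⟩ : ∃ F : ℝ → ℝ, F = fun ε => B / 2 * S * (A * Cm * (2 * H ^ 2 * ε ^ (2 * γ - a) +
    2 * (2 * S * D₁) ^ 2 * ε ^ (2 - a))) := ⟨_, rfl⟩
  have hFev : ∀ᶠ ε in 𝓝 (0 : ℝ), F ε < c / 16 := by
    have h1 : ContinuousAt F 0 := by
      rw [hF]
      have e1 := Real.continuousAt_rpow_const (0 : ℝ) (2 * γ - a) (Or.inr (by linarith))
      have e2 := Real.continuousAt_rpow_const (0 : ℝ) (2 - a) (Or.inr (by linarith))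
      exact (((e1.const_mul (2 * H ^ 2)).add (e2.const_mul (2 * (2 * S * D₁) ^ 2))).const_mul
        (A * Cm)).const_mul (B / 2 * S)
    refine h1.eventually_lt_const ?_
    rw [hF]
    have e1 : (0 : ℝ) ^ (2 * γ - a) = 0 := Real.zero_rpow (by linarith)
    have e2 : (0 : ℝ) ^ (2 - a) = 0 := Real.zero_rpow (by linarith)
    simp only [e1, e2, mul_zero, add_zero]
    positivity
  obtain ⟨ε, ⟨⟨hFε, hε₁⟩, hε₂, hε₃⟩, hε⟩ : ∃ ε : ℝ, ((F ε < c / 16 ∧ ε < δ / 8) ∧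
      ε < 1 / (2 * (D + 1)) ∧ ε < θ / (D + 1)) ∧ 0 < ε := by
    have h1 : ∀ᶠ ε in 𝓝 (0 : ℝ), (F ε < c / 16 ∧ ε < δ / 8) ∧
        ε < 1 / (2 * (D + 1)) ∧ ε < θ / (D + 1) :=
      (hFev.and (eventually_lt_nhds (by positivity))).and
        ((eventually_lt_nhds (by positivity)).and (eventually_lt_nhds (by positivity)))
    have h2 : ∀ᶠ ε in 𝓝[>] (0 : ℝ), ((F ε < c / 16 ∧ ε < δ / 8) ∧
        ε < 1 / (2 * (D + 1)) ∧ ε < θ / (D + 1)) ∧ 0 < ε :=
      (h1.filter_mono nhdsWithin_le_nhds).and self_mem_nhdsWithin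
    exact h2.exists
  rw [lt_div_iff₀ (by positivity)] at hε₂ hε₃
  have hDε2 : D * ε ≤ 1 / 2 := by nlinarith
  have hDε1 : D * ε < 1 := by linarith
  have hDεθ : D * ε ≤ θ := by nlinarith
  obtain ⟨ρ, hρ, hρA⟩ := hmoll ε hε
  have hmove : ∀ p y : E d, ‖y‖ ≤ ε → ‖χ p • y‖ ≤ ε := by
    intro p y hy
    rw [norm_smul, Real.norm_of_nonneg (hχ0 p)]
    calc χ p * ‖y‖ ≤ 1 * ε := mul_le_mul (hχ1 p) hy (norm_nonneg _) zero_le_one
      _ = ε := one_mul ε
  have hBO : ∀ p₀ : E d, ∀ p ∈ Metric.ball p₀ (δ / 2), ∀ y, ‖y‖ ≤ ε →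
      p + χ p • y ∈ Metric.ball p₀ δ := by
    intro p₀ p hp y hy
    rw [Metric.mem_ball, dist_eq_norm] at hp ⊢
    have h1 : p + χ p • y - p₀ = (p - p₀) + χ p • y := by abel
    rw [h1]
    refine (norm_add_le _ _).trans_lt ?_
    have h2 := hmove p y hy
    linarith
  have hball : ∀ p ∈ tsupport χ, ∀ y, ‖y‖ ≤ ε → p + χ p • y ∈ Metric.ball p δ :=
    fun p _ y hy => hBO p p (Metric.mem_ball_self (by positivity)) y hy
  have hOQ : ∀ p ∈ tsupport χ, Metric.ball p δ ⊆ Q := by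
    intro p hp q hq
    apply hGQ
    rw [Metric.mem_thickening_iff]
    exact ⟨p, hp, lt_of_lt_of_le (Metric.mem_ball.1 hq) hδr⟩
  have hin : ∀ p, χ p ≠ 0 → p ∈ tsupport χ := fun p hp => subset_tsupport χ hp
  have hfd : ∀ p, χ p = 0 → fderiv ℝ χ p = 0 := by
    intro p hp
    apply IsLocalMin.fderiv_eq_zero
    refine Eventually.of_forall fun x => ?_
    rw [hp]
    exact hχ0 x
  have hχ00 : ∀ p, 0 < χ p ∨ (χ p = 0 ∧ fderiv ℝ χ p = 0) := by
    intro p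
    rcases (hχ0 p).lt_or_eq with h | h
    · exact Or.inl h
    · exact Or.inr ⟨h.symm, hfd p h.symm⟩
  classical
  set J : E d → Al d 2 := JJ ρ χ Φ with hJdef
  obtain ⟨s', hs'⟩ : ∃ s' : E d → Al d 2, ∀ p, s' p = if χ p = 0 then s p else J p :=
    ⟨_, fun _ => rfl⟩
  -- near the points of the support
  have hloc : ∀ p₀ ∈ tsupport χ, ∀ p ∈ Metric.ball p₀ (δ / 2),
      s' p = JJ ρ χ ((Metric.ball p₀ δ).indicator s) p := by
    intro p₀ hp₀ p hp
    rw [hs' p]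
    split_ifs with h
    · rw [JJ_eq hρ _ h (hfd p h)]
      exact (indicator_of_mem (Metric.ball_subset_ball (by linarith) hp) _).symm
    · rw [hJdef]
      refine JJ_congr hρ fun y hy => ?_
      have h1 := hBO p₀ p hp y hy
      rw [indicator_of_mem h1, hΦs _ (hOQ p₀ hp₀ h1)]
  have hev : ∀ p₀ ∈ tsupport χ, s' =ᶠ[𝓝 p₀] JJ ρ χ ((Metric.ball p₀ δ).indicator s) := by
    intro p₀ hp₀
    filter_upwards [Metric.ball_mem_nhds p₀ (half_pos hδ)] with p hp
    exact hloc p₀ hp₀ p hp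
  set Ω : Set (E d) := V \ (k ∩ {p | χ p = 0}) with hΩ
  have hsplit : ∀ p ∈ Ω, (χ p = 0 ∧ p ∈ V \ k) ∨ (0 < χ p ∧ p ∈ V) := by
    intro p hp
    by_cases h : χ p = 0
    · exact Or.inl ⟨h, hp.1, fun hk => hp.2 ⟨hk, h⟩⟩
    · exact Or.inr ⟨lt_of_le_of_ne (hχ0 p) (Ne.symm h), hp.1⟩
  have hev2 : ∀ p, p ∉ tsupport χ → s' =ᶠ[𝓝 p] s := by
    intro p hp
    filter_upwards [notMem_tsupport_iff_eventuallyEq.1 hp] with q hq
    have hq' : χ q = 0 := hq
    rw [hs' q, if_pos hq']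
  have hsm : ∀ p ∈ Ω, ContDiffAt ℝ ∞ s' p ∧ extDeriv s' p = 0 := by
    intro p hp
    by_cases hpt : p ∈ tsupport χ
    · have hO : IsOpen (Metric.ball p δ) := Metric.isOpen_ball
      have hL := hδL p hpt
      have h1 : ContDiffAt ℝ ∞ (JJ ρ χ ((Metric.ball p δ).indicator s)) p ∧
          extDeriv (JJ ρ χ ((Metric.ball p δ).indicator s)) p = 0 := by
        rcases hsplit p hp with h | h
        · have hOk : IsOpen (Metric.ball p δ ∩ (V \ k)) := hO.inter hVk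
          have hpk : p ∈ Metric.ball p δ ∩ (V \ k) := ⟨Metric.mem_ball_self hδ, h.2⟩
          refine JJ_sc' hSM hρ hχ hOk ?_ ?_ (p := p) (fun y _ => by
            rw [h.1, zero_smul, add_zero]
            exact hpk)
          · refine (hs.mono inter_subset_right).congr fun q hq => ?_
            exact indicator_of_mem hq.1 _
          · intro q hq
            have h3 : (Metric.ball p δ).indicator s =ᶠ[𝓝 q] s := by
              filter_upwards [hO.mem_nhds hq.1] with x hx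
              exact indicator_of_mem hx _
            rw [h3.extDeriv_eq, hcl q hq.2]
        · exact ⟨JJ_smooth' hχ h.1 hρ.smooth (moll_cs hρ) (ind_int hO hL.meas hL.fin),
            LCl_closed hSM hρ hχ hO h.1 (hball p hpt) hL⟩
      refine ⟨h1.1.congr_of_eventuallyEq (hev p hpt), ?_⟩
      rw [(hev p hpt).extDeriv_eq]
      exact h1.2
    · have hpV : p ∈ V \ k := by
        rcases hsplit p hp with h | h
        · exact h.2
        · exact absurd (hin p h.1.ne') hpt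
      refine ⟨(hs.contDiffAt (hVk.mem_nhds hpV)).congr_of_eventuallyEq (hev2 p hpt), ?_⟩
      rw [(hev2 p hpt).extDeriv_eq]
      exact hcl p hpV
  have hkey : ∀ p, χ p ≠ 0 → (∀ v : E d, c / 16 * ‖v‖ ^ 2 ≤ JJ ρ χ Φ p ![v, Js p v]) ∧
      ∀ v w : E d, (JJ ρ χ Φ p ![v, w]) ^ 2 ≤
        16 * B * (JJ ρ χ Φ p ![v, Js p v] * JJ ρ χ Φ p ![w, Js p w]) := by
    intro p h0
    have hp0 : 0 < χ p := lt_of_le_of_ne (hχ0 p) (Ne.symm h0)
    have hpN : p ∈ tsupport χ := hin p h0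
    have hpQ : p ∈ Q := hNQ hpN
    have hu0 : 0 < χ p * ε := by positivity
    have hu1 : χ p * ε ≤ ε := by
      calc χ p * ε ≤ 1 * ε := mul_le_mul_of_nonneg_right (hχ1 p) hε.le
        _ = ε := one_mul ε
    obtain ⟨κ, hκ⟩ : ∃ κ : ℝ, κ = H * (χ p * ε) ^ γ + 2 * S * (D₁ * χ p ^ b * ε) := ⟨_, rfl⟩
    have hκ0 : 0 ≤ κ := by rw [hκ]; positivity
    refine JJ_Q (D := D) (κ := κ) (S := S) hρ hΦi hc hB hS0 hκ0 hp0 (hD p) hDε2 ?_ ?_
    · have hBm : ∫⁻ x in Metric.ball p (χ p * ε), ‖Φ x‖ₑ ≤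
          ENNReal.ofReal (Cm * (χ p * ε) ^ ((d : ℝ) - a)) := by
        refine le_trans (lintegral_mono fun x => ?_) (hmor p hpQ (χ p * ε) hu0 (by linarith))
        rw [hΦ]
        by_cases hx : x ∈ Q
        · rw [indicator_of_mem hx]
        · rw [indicator_of_notMem hx, ← ofReal_norm, norm_zero, ENNReal.ofReal_zero]
          exact bot_le
      have h1 := av_bd hA0.le hρ hρA hΦi hε hp0 (by positivity) hBm
      have h2 : A * ((χ p * ε)⁻¹) ^ d * (Cm * (χ p * ε) ^ ((d : ℝ) - a)) =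
          A * Cm * (χ p * ε) ^ (-a) := by
        have h3 : ((χ p * ε)⁻¹) ^ d = (χ p * ε) ^ (-(d : ℝ)) := by
          rw [Real.rpow_neg hu0.le, Real.rpow_natCast, inv_pow]
        have h4 : (χ p * ε) ^ (-(d : ℝ)) * (χ p * ε) ^ ((d : ℝ) - a) = (χ p * ε) ^ (-a) := by
          rw [← Real.rpow_add hu0]
          congr 1
          ring
        rw [h3, ← h4]
        ring
      rw [h2] at h1
      have h5 : ((χ p * ε) ^ γ) ^ 2 * (χ p * ε) ^ (-a) ≤ ε ^ (2 * γ - a) := by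
        rw [← Real.rpow_natCast ((χ p * ε) ^ γ) 2, ← Real.rpow_mul hu0.le, ← Real.rpow_add hu0]
        have e1 : γ * ((2 : ℕ) : ℝ) + -a = 2 * γ - a := by push_cast; ring
        rw [e1]
        exact Real.rpow_le_rpow hu0.le hu1 (by linarith)
      have h6 : (χ p ^ b * ε) ^ 2 * (χ p * ε) ^ (-a) ≤ ε ^ (2 - a) := by
        have e1 : (χ p ^ b * ε) ^ 2 * (χ p * ε) ^ (-a) = χ p ^ (2 * b - a) * ε ^ (2 - a) := by
          rw [Real.mul_rpow hp0.le hε.le, mul_pow, ← Real.rpow_natCast (χ p ^ b) 2,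
            ← Real.rpow_mul hp0.le, ← Real.rpow_natCast ε 2]
          have e2 : χ p ^ (b * ((2 : ℕ) : ℝ)) * ε ^ (((2 : ℕ) : ℝ)) * (χ p ^ (-a) * ε ^ (-a)) =
              (χ p ^ (b * ((2 : ℕ) : ℝ)) * χ p ^ (-a)) * (ε ^ (((2 : ℕ) : ℝ)) * ε ^ (-a)) := by
            ring
          rw [e2, ← Real.rpow_add hp0, ← Real.rpow_add hε]
          congr 2
          push_cast
          ring
        rw [e1]
        have e3 : χ p ^ (2 * b - a) ≤ 1 := Real.rpow_le_one hp0.le (hχ1 p) (by linarith)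
        have e4 : 0 ≤ ε ^ (2 - a) := by positivity
        nlinarith
      have h9 : κ ^ 2 * (χ p * ε) ^ (-a) ≤ 2 * H ^ 2 * ε ^ (2 * γ - a) +
          2 * (2 * S * D₁) ^ 2 * ε ^ (2 - a) := by
        have e0 : 0 ≤ (χ p * ε) ^ (-a) := by positivity
        have e1 : κ ^ 2 ≤ 2 * H ^ 2 * ((χ p * ε) ^ γ) ^ 2 +
            2 * (2 * S * D₁) ^ 2 * (χ p ^ b * ε) ^ 2 := by
          rw [hκ]
          have := sq_nonneg (H * (χ p * ε) ^ γ - 2 * S * (D₁ * χ p ^ b * ε))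
          nlinarith
        calc κ ^ 2 * (χ p * ε) ^ (-a) ≤ (2 * H ^ 2 * ((χ p * ε) ^ γ) ^ 2 +
            2 * (2 * S * D₁) ^ 2 * (χ p ^ b * ε) ^ 2) * (χ p * ε) ^ (-a) :=
              mul_le_mul_of_nonneg_right e1 e0
          _ = 2 * H ^ 2 * (((χ p * ε) ^ γ) ^ 2 * (χ p * ε) ^ (-a)) +
            2 * (2 * S * D₁) ^ 2 * ((χ p ^ b * ε) ^ 2 * (χ p * ε) ^ (-a)) := by ring
          _ ≤ _ := add_le_add (mul_le_mul_of_nonneg_left h5 (by positivity))
            (mul_le_mul_of_nonneg_left h6 (by positivity))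
      have h12 : F ε < c / 16 := hFε
      rw [hF] at h12
      calc B / 2 * S * κ ^ 2 * (∫ y, ρ y * ‖Φ (p + χ p • y)‖)
          ≤ B / 2 * S * κ ^ 2 * (A * Cm * (χ p * ε) ^ (-a)) := by gcongr
        _ = B / 2 * S * (A * Cm * (κ ^ 2 * (χ p * ε) ^ (-a))) := by ring
        _ ≤ B / 2 * S * (A * Cm * (2 * H ^ 2 * ε ^ (2 * γ - a) +
            2 * (2 * S * D₁) ^ 2 * ε ^ (2 - a))) := by gcongr
        _ ≤ c / 16 := h12.le
    · filter_upwards [Pool.Agent.Y515.SY.aff_null (hnull' Q hQ hrV) p h0] with y hy hyε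
      have hyQ := hOQ p hpN (hball p hpN y hyε.le)
      have hyN : p + χ p • y ∉ N := fun h' => hy ⟨h', hyQ⟩
      refine ⟨?_, hS _ hyQ, ?_, ?_⟩
      · rw [hκ]
        refine comm_bd hS0 (hS p hpQ) (hS _ hyQ) ?_ ?_
        · refine (hJH p (hrV hpQ) _ (hrV hyQ)).trans (mul_le_mul_of_nonneg_left ?_ hH)
          refine Real.rpow_le_rpow (norm_nonneg _) ?_ (by linarith)
          rw [sub_add_cancel_left, norm_neg, norm_smul, Real.norm_of_nonneg hp0.le]
          exact mul_le_mul_of_nonneg_left hyε.le hp0.le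
        · exact mul_le_mul (hχD p) hyε.le (norm_nonneg _) (by positivity)
      · intro v
        rw [hΦs _ hyQ]
        exact hpos _ ⟨hrV hyQ, hyN⟩ v
      · intro v w
        rw [hΦs _ hyQ]
        exact hSB _ ⟨hrV hyQ, hyN⟩ v w
  refine ⟨s', c / 16, by positivity, ?_, ?_, ?_, ?_, ?_, ?_, ?_⟩
  · intro p hp
    exact (hsm p hp).1.contDiffWithinAt
  · intro p hp
    exact (hsm p hp).2
  · intro p hp
    rw [hs' p, if_pos hp]
  · intro p hp v
    by_cases h0 : χ p = 0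
    · have hpN : p ∈ V \ N := ⟨hp.1, fun h => hp.2 ⟨h, h0⟩⟩
      rw [hs' p, if_pos h0]
      refine le_trans ?_ (hpos p hpN v)
      have h2 : 0 ≤ ‖v‖ ^ 2 := sq_nonneg _
      nlinarith
    · rw [hs' p, if_neg h0]
      exact (hkey p h0).1 v
  · intro p hp v w
    by_cases h0 : χ p = 0
    · have hpN : p ∈ V \ N := ⟨hp.1, fun h => hp.2 ⟨h, h0⟩⟩
      rw [hs' p, if_pos h0]
      refine (hSB p hpN v w).trans ?_
      have h2 : 0 ≤ s p ![v, Js p v] := le_trans (by positivity) (hpos p hpN v)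
      have h3 : 0 ≤ s p ![w, Js p w] := le_trans (by positivity) (hpos p hpN w)
      have h4 : 0 ≤ B * (s p ![v, Js p v] * s p ![w, Js p w]) := by positivity
      linarith
    · rw [hs' p, if_neg h0]
      exact (hkey p h0).2 v w
  · intro p hp
    by_cases hpt : p ∈ tsupport χ
    · refine ⟨δ / 2, half_pos hδ, ?_⟩
      refine LCl.congr Metric.isOpen_ball ?_ (hloc p hpt)
      exact LCl_JJ hSM hε.le hρ hχ hχ00 hD hDε1 hDεθ hdet Metric.isOpen_ball Metric.isOpen_ball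
        (hBO p) (hδL p hpt)
    · obtain ⟨R, hR, hL⟩ := hLC p hp
      have h1 : IsOpen (tsupport χ)ᶜ := (isClosed_tsupport χ).isOpen_compl
      obtain ⟨R', hR', hR''⟩ := Metric.isOpen_iff.1 h1 p hpt
      refine ⟨min R R', lt_min hR hR', ?_⟩
      refine LCl.congr Metric.isOpen_ball (hL.mono (Metric.ball_subset_ball (min_le_left _ _)))
        fun q hq => ?_
      have hq' : q ∉ tsupport χ := hR'' (Metric.ball_subset_ball (min_le_right _ _) hq)
      rw [hs' q, if_pos (image_eq_zero_of_notMem_tsupport hq')]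
  · intro p hp
    by_cases hpt : p ∈ tsupport χ
    · refine ⟨δ / 8, 8 * (Cm * 2 ^ ((d : ℝ) - a)), by positivity, by positivity,
        fun q hq t ht htδ => ?_⟩
      have hqd : dist q p < δ / 8 := Metric.mem_ball.1 hq
      have hsub : Metric.ball q t ⊆ Metric.ball p (δ / 2) := by
        intro x hx
        rw [Metric.mem_ball] at hx ⊢
        have := dist_triangle x q p
        linarith
      have h1 : ∫⁻ x in Metric.ball q t, ‖s' x‖ₑ =
          ∫⁻ x in Metric.ball q t, ‖JJ ρ χ ((Metric.ball p δ).indicator s) x‖ₑ := by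
        refine setLIntegral_congr_fun Metric.isOpen_ball.measurableSet fun x hx => ?_
        simp only [hloc p hpt x (hsub hx)]
      rw [h1]
      have hL := hδL p hpt
      refine (JJ_ball hε.le hρ hχ hχ00 hD hDε1 hDεθ hdet
        (ind_int Metric.isOpen_ball hL.meas hL.fin) (q := q) (t := t)
        (M := ENNReal.ofReal (Cm * (2 * t) ^ ((d : ℝ) - a))) fun y hy => ?_).trans ?_
      · have h2 : q + χ q • y ∈ Q := by
          apply hOQ p hpt
          rw [Metric.mem_ball, dist_eq_norm] at *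
          have h3 : q + χ q • y - p = (q - p) + χ q • y := by abel
          rw [h3]
          refine (norm_add_le _ _).trans_lt ?_
          have := hmove q y hy
          linarith
        refine le_trans (lintegral_mono fun x => ?_) (hmor _ h2 (2 * t) (by positivity)
          (by linarith))
        by_cases hx : x ∈ Metric.ball p δ
        · rw [indicator_of_mem hx]
        · rw [indicator_of_notMem hx, ← ofReal_norm, norm_zero, ENNReal.ofReal_zero]
          exact bot_le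
      · have h8 : (8 : ℝ≥0∞) = ENNReal.ofReal 8 := by norm_num
        rw [h8, ← ENNReal.ofReal_mul (by norm_num), Real.mul_rpow (by norm_num) ht.le]
        refine ENNReal.ofReal_le_ofReal (le_of_eq ?_)
        ring
    · have h1 : IsOpen (tsupport χ)ᶜ := (isClosed_tsupport χ).isOpen_compl
      obtain ⟨R', hR', hR''⟩ := Metric.isOpen_iff.1 h1 p hpt
      refine (hMor p hp).congr hR' fun q hq => ?_
      rw [hs' q, if_pos (image_eq_zero_of_notMem_tsupport (hR'' hq))]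

end Pool.Agent.U896.SQ
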