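import Pool.Agent.U896.SC.L1
import Pool.Agent.U896.SQ.RegQ

/-!
# Forms with a Cauchy-Schwarz bound in a prescribed class: regularization in a chart
-/

set_option autoImplicit false

open Set Filter Topology MeasureTheory
open scoped Manifold ContDiff ENNReal

noncomputable section

namespace Pool.Agent.U896.SQ

open Pool.Agent.Y501.SY (E Moll S_SM S_HH JJ1)
open Pool.Agent.Y515.SY
open Pool.Agent.U896
open Pool.Agent.U896.SE hiding sq aff_null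
open Pool.Agent.U896.SW
open Pool.Agent.U896.SV
open Pool.Agent.U896.SC

variable {d : ℕ}

theorem posQ {V N Q : Set (E d)} {χ : E d → ℝ}
    {s : E d → Al d 2} {Js : E d → (E d →L[ℝ] E d)} {c a γ b B H D₁ A : ℝ} (hc : 0 < c) (ha : 0 ≤ a)
    (haγ : a < 2 * γ) (hγ : γ ≤ 1) (hab : a ≤ 2 * b) (hB : 0 < B) (hH : 0 ≤ H) (hD₁ : 0 ≤ D₁) (hA0 : 0 < A)
    (hnull : volume (N ∩ Q) = 0) (hMor : ∀ p ∈ V, Mor a s p)
    (hχ : ContDiff ℝ ∞ χ) (hχ0 : ∀ p, 0 ≤ χ p) (hχ1 : ∀ p, χ p ≤ 1)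
    (hχD : ∀ p, ‖fderiv ℝ χ p‖ ≤ D₁ * χ p ^ b) (hχc : HasCompactSupport χ)
    (hQ : IsCompact Q) (hrV : Q ⊆ V) {δ₀ : ℝ} (hδ₀ : 0 < δ₀)
    (hGQ : Metric.thickening δ₀ (tsupport χ) ⊆ Q) (hΦi : Integrable (Q.indicator s))
    (hJ : ContinuousOn Js V) (hJH : ∀ p ∈ V, ∀ q ∈ V, ‖Js p - Js q‖ ≤ H * ‖p - q‖ ^ γ)
    (hpos : ∀ p ∈ V \ N, ∀ v : E d, c * ‖v‖ ^ 2 ≤ s p ![v, Js p v])
    (hSB : ∀ p ∈ V \ N, ∀ v w : E d, (s p ![v, w]) ^ 2 ≤
      B * (s p ![v, Js p v] * s p ![w, Js p w])) :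
    ∃ ε₀ : ℝ, 0 < ε₀ ∧ ∀ ε : ℝ, 0 < ε → ε ≤ ε₀ → ∀ ρ : E d → ℝ, Moll ε ρ →
      (∀ y, ρ y ≤ A * (ε⁻¹) ^ d) →
      (∀ p, 0 < χ p → (∀ v : E d, c / 16 * ‖v‖ ^ 2 ≤ JJ ρ χ (Q.indicator s) p ![v, Js p v]) ∧
        ∀ v w : E d, (JJ ρ χ (Q.indicator s) p ![v, w]) ^ 2 ≤ 16 * B *
          (JJ ρ χ (Q.indicator s) p ![v, Js p v] * JJ ρ χ (Q.indicator s) p ![w, Js p w])) ∧
      ∀ s' : E d → Al d 2, (∀ p, χ p = 0 → s' p = s p) →
        (∀ p, 0 < χ p → s' p = JJ ρ χ (Q.indicator s) p) → ∀ p ∈ V, Mor a s' p := by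
  have hNQ : tsupport χ ⊆ Q := (Metric.self_subset_thickening hδ₀ _).trans hGQ
  -- a uniform radius
  obtain ⟨δ₁, Cm, hδ₁, hCm, hmor⟩ := mor_unif hQ fun p hp => hMor p (hrV hp)
  obtain ⟨δ, hδ, hδr, hδm⟩ : ∃ δ : ℝ, 0 < δ ∧ δ ≤ δ₀ ∧ δ ≤ δ₁ :=
    ⟨min δ₀ δ₁, lt_min hδ₀ hδ₁, min_le_left _ _, min_le_right _ _⟩
  obtain ⟨Φ, hΦ⟩ : ∃ Φ : E d → Al d 2, Φ = Q.indicator s := ⟨_, rfl⟩
  rw [← hΦ] at hΦi
  rw [← hΦ]
  have hΦs : ∀ p ∈ Q, Φ p = s p := fun p hp => by rw [hΦ]; exact indicator_of_mem hp s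
  -- constants
  obtain ⟨S₀, hS₀⟩ := hQ.exists_bound_of_continuousOn (hJ.mono hrV)
  set S : ℝ := max S₀ 0 with hSdef
  have hS0 : 0 ≤ S := le_max_right _ _
  have hS : ∀ p ∈ Q, ‖Js p‖ ≤ S := fun p hp => (hS₀ p hp).trans (le_max_left _ _)
  obtain ⟨D, hD⟩ := (hχ.continuous_fderiv (by simp)).bounded_above_of_compact_support
    (hχc.fderiv ℝ)
  have hD0 : 0 ≤ D := (norm_nonneg _).trans (hD 0)
  obtain ⟨θ, hθ, hdet⟩ := det_near (d := d)
  obtain ⟨F, hF⟩ : ∃ F : ℝ → ℝ, F = fun ε => B / 2 * S * (A * Cm * (2 * H ^ 2 * ε ^ (2 * γ - a) +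
    2 * (2 * S * D₁) ^ 2 * ε ^ (2 - a))) := ⟨_, rfl⟩
  have hFev : ∀ᶠ ε in 𝓝 (0 : ℝ), F ε < c / 16 := by
    have h1 : ContinuousAt F 0 := by
      rw [hF]
      have e1 := Real.continuousAt_rpow_const (0 : ℝ) (2 * γ - a) (Or.inr (by linarith))
      have e2 := Real.continuousAt_rpow_const (0 : ℝ) (2 - a) (Or.inr (by linarith))
      exact (((e1.const_mul (2 * H ^ 2)).add (e2.const_mul (2 * (2 * S * D₁) ^ 2))).const_mul
        (A * Cm)).const_mul (B / 2 * S)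
    refine h1.eventually_lt_const ?_
    rw [hF]
    have e1 : (0 : ℝ) ^ (2 * γ - a) = 0 := Real.zero_rpow (by linarith)
    have e2 : (0 : ℝ) ^ (2 - a) = 0 := Real.zero_rpow (by linarith)
    simp only [e1, e2, mul_zero, add_zero]
    positivity
  have hall : ∀ᶠ ε in 𝓝 (0 : ℝ), (F ε < c / 16 ∧ ε < δ / 8) ∧
      ε < 1 / (2 * (D + 1)) ∧ ε < θ / (D + 1) :=
    (hFev.and (eventually_lt_nhds (by positivity))).and
      ((eventually_lt_nhds (by positivity)).and (eventually_lt_nhds (by positivity)))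
  obtain ⟨ε₀, hε₀, hε₀'⟩ := Metric.eventually_nhds_iff.1 hall
  refine ⟨ε₀ / 2, half_pos hε₀, ?_⟩
  intro ε hε hεle ρ hρ hρA
  obtain ⟨⟨hFε, hε₁⟩, hε₂, hε₃⟩ := hε₀' (y := ε) (by
    rw [Real.dist_eq, sub_zero, abs_of_pos hε]
    linarith)
  rw [lt_div_iff₀ (by positivity)] at hε₂ hε₃
  have hDε2 : D * ε ≤ 1 / 2 := by nlinarith
  have hDε1 : D * ε < 1 := by linarith
  have hDεθ : D * ε ≤ θ := by nlinarith
  have hmove : ∀ p y : E d, ‖y‖ ≤ ε → ‖χ p • y‖ ≤ ε := by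
    intro p y hy
    rw [norm_smul, Real.norm_of_nonneg (hχ0 p)]
    calc χ p * ‖y‖ ≤ 1 * ε := mul_le_mul (hχ1 p) hy (norm_nonneg _) zero_le_one
      _ = ε := one_mul ε
  have hBO : ∀ p₀ : E d, ∀ p ∈ Metric.ball p₀ (δ / 2), ∀ y, ‖y‖ ≤ ε →
      p + χ p • y ∈ Metric.ball p₀ δ := by
    intro p₀ p hp y hy
    rw [Metric.mem_ball, dist_eq_norm] at hp ⊢
    have h1 : p + χ p • y - p₀ = (p - p₀) + χ p • y := by abel
    rw [h1]
    refine (norm_add_le _ _).trans_lt ?_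
    have h2 := hmove p y hy
    linarith
  have hball : ∀ p ∈ tsupport χ, ∀ y, ‖y‖ ≤ ε → p + χ p • y ∈ Metric.ball p δ :=
    fun p _ y hy => hBO p p (Metric.mem_ball_self (by positivity)) y hy
  have hOQ : ∀ p ∈ tsupport χ, Metric.ball p δ ⊆ Q := by
    intro p hp q hq
    apply hGQ
    rw [Metric.mem_thickening_iff]
    exact ⟨p, hp, lt_of_lt_of_le (Metric.mem_ball.1 hq) hδr⟩
  have hin : ∀ p, χ p ≠ 0 → p ∈ tsupport χ := fun p hp => subset_tsupport χ hp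
  have hfd : ∀ p, χ p = 0 → fderiv ℝ χ p = 0 := by
    intro p hp
    apply IsLocalMin.fderiv_eq_zero
    refine Eventually.of_forall fun x => ?_
    rw [hp]
    exact hχ0 x
  have hχ00 : ∀ p, 0 < χ p ∨ (χ p = 0 ∧ fderiv ℝ χ p = 0) := by
    intro p
    rcases (hχ0 p).lt_or_eq with h | h
    · exact Or.inl h
    · exact Or.inr ⟨h.symm, hfd p h.symm⟩
  refine ⟨?_, ?_⟩
  · intro p hp0
    have h0 : χ p ≠ 0 := hp0.ne'
    have hpN : p ∈ tsupport χ := hin p h0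
    have hpQ : p ∈ Q := hNQ hpN
    have hu0 : 0 < χ p * ε := by positivity
    have hu1 : χ p * ε ≤ ε := by
      calc χ p * ε ≤ 1 * ε := mul_le_mul_of_nonneg_right (hχ1 p) hε.le
        _ = ε := one_mul ε
    obtain ⟨κ, hκ⟩ : ∃ κ : ℝ, κ = H * (χ p * ε) ^ γ + 2 * S * (D₁ * χ p ^ b * ε) := ⟨_, rfl⟩
    have hκ0 : 0 ≤ κ := by rw [hκ]; positivity
    refine JJ_Q (D := D) (κ := κ) (S := S) hρ hΦi hc hB hS0 hκ0 hp0 (hD p) hDε2 ?_ ?_
    · have hBm : ∫⁻ x in Metric.ball p (χ p * ε), ‖Φ x‖ₑ ≤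
          ENNReal.ofReal (Cm * (χ p * ε) ^ ((d : ℝ) - a)) := by
        refine le_trans (lintegral_mono fun x => ?_) (hmor p hpQ (χ p * ε) hu0 (by linarith))
        rw [hΦ]
        by_cases hx : x ∈ Q
        · rw [indicator_of_mem hx]
        · rw [indicator_of_notMem hx, ← ofReal_norm, norm_zero, ENNReal.ofReal_zero]
          exact bot_le
      have h1 := av_bd hA0.le hρ hρA hΦi hε hp0 (by positivity) hBm
      have h2 : A * ((χ p * ε)⁻¹) ^ d * (Cm * (χ p * ε) ^ ((d : ℝ) - a)) =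
          A * Cm * (χ p * ε) ^ (-a) := by
        have h3 : ((χ p * ε)⁻¹) ^ d = (χ p * ε) ^ (-(d : ℝ)) := by
          rw [Real.rpow_neg hu0.le, Real.rpow_natCast, inv_pow]
        have h4 : (χ p * ε) ^ (-(d : ℝ)) * (χ p * ε) ^ ((d : ℝ) - a) = (χ p * ε) ^ (-a) := by
          rw [← Real.rpow_add hu0]
          congr 1
          ring
        rw [h3, ← h4]
        ring
      rw [h2] at h1
      have h5 : ((χ p * ε) ^ γ) ^ 2 * (χ p * ε) ^ (-a) ≤ ε ^ (2 * γ - a) := by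
        rw [← Real.rpow_natCast ((χ p * ε) ^ γ) 2, ← Real.rpow_mul hu0.le, ← Real.rpow_add hu0]
        have e1 : γ * ((2 : ℕ) : ℝ) + -a = 2 * γ - a := by push_cast; ring
        rw [e1]
        exact Real.rpow_le_rpow hu0.le hu1 (by linarith)
      have h6 : (χ p ^ b * ε) ^ 2 * (χ p * ε) ^ (-a) ≤ ε ^ (2 - a) := by
        have e1 : (χ p ^ b * ε) ^ 2 * (χ p * ε) ^ (-a) = χ p ^ (2 * b - a) * ε ^ (2 - a) := by
          rw [Real.mul_rpow hp0.le hε.le, mul_pow, ← Real.rpow_natCast (χ p ^ b) 2,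
            ← Real.rpow_mul hp0.le, ← Real.rpow_natCast ε 2]
          have e2 : χ p ^ (b * ((2 : ℕ) : ℝ)) * ε ^ (((2 : ℕ) : ℝ)) * (χ p ^ (-a) * ε ^ (-a)) =
              (χ p ^ (b * ((2 : ℕ) : ℝ)) * χ p ^ (-a)) * (ε ^ (((2 : ℕ) : ℝ)) * ε ^ (-a)) := by
            ring
          rw [e2, ← Real.rpow_add hp0, ← Real.rpow_add hε]
          congr 2
          push_cast
          ring
        rw [e1]
        have e3 : χ p ^ (2 * b - a) ≤ 1 := Real.rpow_le_one hp0.le (hχ1 p) (by linarith)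
        have e4 : 0 ≤ ε ^ (2 - a) := by positivity
        nlinarith
      have h9 : κ ^ 2 * (χ p * ε) ^ (-a) ≤ 2 * H ^ 2 * ε ^ (2 * γ - a) +
          2 * (2 * S * D₁) ^ 2 * ε ^ (2 - a) := by
        have e0 : 0 ≤ (χ p * ε) ^ (-a) := by positivity
        have e1 : κ ^ 2 ≤ 2 * H ^ 2 * ((χ p * ε) ^ γ) ^ 2 +
            2 * (2 * S * D₁) ^ 2 * (χ p ^ b * ε) ^ 2 := by
          rw [hκ]
          have := sq_nonneg (H * (χ p * ε) ^ γ - 2 * S * (D₁ * χ p ^ b * ε))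
          nlinarith
        calc κ ^ 2 * (χ p * ε) ^ (-a) ≤ (2 * H ^ 2 * ((χ p * ε) ^ γ) ^ 2 +
            2 * (2 * S * D₁) ^ 2 * (χ p ^ b * ε) ^ 2) * (χ p * ε) ^ (-a) :=
              mul_le_mul_of_nonneg_right e1 e0
          _ = 2 * H ^ 2 * (((χ p * ε) ^ γ) ^ 2 * (χ p * ε) ^ (-a)) +
            2 * (2 * S * D₁) ^ 2 * ((χ p ^ b * ε) ^ 2 * (χ p * ε) ^ (-a)) := by ring
          _ ≤ _ := add_le_add (mul_le_mul_of_nonneg_left h5 (by positivity))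
            (mul_le_mul_of_nonneg_left h6 (by positivity))
      have h12 : F ε < c / 16 := hFε
      rw [hF] at h12
      calc B / 2 * S * κ ^ 2 * (∫ y, ρ y * ‖Φ (p + χ p • y)‖)
          ≤ B / 2 * S * κ ^ 2 * (A * Cm * (χ p * ε) ^ (-a)) := by gcongr
        _ = B / 2 * S * (A * Cm * (κ ^ 2 * (χ p * ε) ^ (-a))) := by ring
        _ ≤ B / 2 * S * (A * Cm * (2 * H ^ 2 * ε ^ (2 * γ - a) +
            2 * (2 * S * D₁) ^ 2 * ε ^ (2 - a))) := by gcongr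
        _ ≤ c / 16 := h12.le
    · filter_upwards [Pool.Agent.Y515.SY.aff_null hnull p h0] with y hy hyε
      have hyQ := hOQ p hpN (hball p hpN y hyε.le)
      have hyN : p + χ p • y ∉ N := fun h' => hy ⟨h', hyQ⟩
      refine ⟨?_, hS _ hyQ, ?_, ?_⟩
      · rw [hκ]
        refine comm_bd hS0 (hS p hpQ) (hS _ hyQ) ?_ ?_
        · refine (hJH p (hrV hpQ) _ (hrV hyQ)).trans (mul_le_mul_of_nonneg_left ?_ hH)
          refine Real.rpow_le_rpow (norm_nonneg _) ?_ (by linarith)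
          rw [sub_add_cancel_left, norm_neg, norm_smul, Real.norm_of_nonneg hp0.le]
          exact mul_le_mul_of_nonneg_left hyε.le hp0.le
        · exact mul_le_mul (hχD p) hyε.le (norm_nonneg _) (by positivity)
      · intro v
        rw [hΦs _ hyQ]
        exact hpos _ ⟨hrV hyQ, hyN⟩ v
      · intro v w
        rw [hΦs _ hyQ]
        exact hSB _ ⟨hrV hyQ, hyN⟩ v w
  · intro s' hs'0 hs'1
    have hind : ∀ p, Integrable ((Metric.ball p δ).indicator Φ) := fun p =>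
      ind_int1 Metric.isOpen_ball hΦi.aestronglyMeasurable.restrict
        ((setLIntegral_le_lintegral _ _).trans_lt (hasFiniteIntegral_iff_enorm.1 hΦi.2))
    have hloc : ∀ p₀ ∈ tsupport χ, ∀ p ∈ Metric.ball p₀ (δ / 2),
        s' p = JJ ρ χ ((Metric.ball p₀ δ).indicator Φ) p := by
      intro p₀ hp₀ p hp
      rcases hχ00 p with h | h
      · rw [hs'1 p h]
        refine JJ_congr hρ fun y hy => ?_
        have h1 := hBO p₀ p hp y hy
        rw [indicator_of_mem h1]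
      · have h1 : p ∈ Metric.ball p₀ δ := Metric.ball_subset_ball (by linarith) hp
        rw [hs'0 p h.1, JJ_eq hρ _ h.1 h.2, indicator_of_mem h1, hΦs p (hOQ p₀ hp₀ h1)]
    intro p hp
    by_cases hpt : p ∈ tsupport χ
    · refine ⟨δ / 8, 8 * (Cm * 2 ^ ((d : ℝ) - a)), by positivity, by positivity,
        fun q hq t ht htδ => ?_⟩
      have hqd : dist q p < δ / 8 := Metric.mem_ball.1 hq
      have hsub : Metric.ball q t ⊆ Metric.ball p (δ / 2) := by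
        intro x hx
        rw [Metric.mem_ball] at hx ⊢
        have := dist_triangle x q p
        linarith
      have h1 : ∫⁻ x in Metric.ball q t, ‖s' x‖ₑ =
          ∫⁻ x in Metric.ball q t, ‖JJ ρ χ ((Metric.ball p δ).indicator Φ) x‖ₑ := by
        refine setLIntegral_congr_fun Metric.isOpen_ball.measurableSet fun x hx => ?_
        rw [hloc p hpt x (hsub hx)]
      rw [h1]
      refine (JJ_ball hε.le hρ hχ hχ00 hD hDε1 hDεθ hdet
        (hind p) (q := q) (t := t)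
        (M := ENNReal.ofReal (Cm * (2 * t) ^ ((d : ℝ) - a))) fun y hy => ?_).trans ?_
      · have h2 : q + χ q • y ∈ Q := by
          apply hOQ p hpt
          rw [Metric.mem_ball, dist_eq_norm] at *
          have h3 : q + χ q • y - p = (q - p) + χ q • y := by abel
          rw [h3]
          refine (norm_add_le _ _).trans_lt ?_
          have := hmove q y hy
          linarith
        refine le_trans (lintegral_mono fun x => ?_) (hmor _ h2 (2 * t) (by positivity)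
          (by linarith))
        by_cases hx : x ∈ Metric.ball p δ
        · rw [indicator_of_mem hx, hΦ]
          by_cases hxQ : x ∈ Q
          · rw [indicator_of_mem hxQ]
          · rw [indicator_of_notMem hxQ, ← ofReal_norm, norm_zero, ENNReal.ofReal_zero]
            exact bot_le
        · rw [indicator_of_notMem hx, ← ofReal_norm, norm_zero, ENNReal.ofReal_zero]
          exact bot_le
      · have h8 : (8 : ℝ≥0∞) = ENNReal.ofReal 8 := by norm_num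
        rw [h8, ← ENNReal.ofReal_mul (by norm_num), Real.mul_rpow (by norm_num) ht.le]
        refine ENNReal.ofReal_le_ofReal (le_of_eq ?_)
        ring
    · have h1 : IsOpen (tsupport χ)ᶜ := (isClosed_tsupport χ).isOpen_compl
      obtain ⟨R', hR', hR''⟩ := Metric.isOpen_iff.1 h1 p hpt
      refine (hMor p hp).congr hR' fun q hq => ?_
      rw [hs'0 q (image_eq_zero_of_notMem_tsupport (hR'' hq))]


theorem regCQ (hSM : S_SM) (hHH : S_HH) {V k N : Set (E d)} {χ : E d → ℝ}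
    {s₀ s : E d → Al d 2} {b : E d → Al d 1} {Js : E d → (E d →L[ℝ] E d)}
    {c a γ bb B H D₁ : ℝ}
    (hc : 0 < c) (ha : 0 ≤ a) (haγ : a < 2 * γ) (hγ : γ ≤ 1) (hab : a ≤ 2 * bb) (hB : 0 < B)
    (hH : 0 ≤ H) (hD₁ : 0 ≤ D₁)
    (hV : IsOpen V) (hVk : IsOpen (V \ k)) (_hNk : N ⊆ k)
    (hnull' : ∀ Q : Set (E d), IsCompact Q → Q ⊆ V → volume (N ∩ Q) = 0)
    (hLP : ∀ p ∈ V, LPp b (fun q => s q - s₀ q) p) (hMor : ∀ p ∈ V, Mor a s p)
    (hχ : ContDiff ℝ ∞ χ) (hχ0 : ∀ p, 0 ≤ χ p) (hχ1 : ∀ p, χ p ≤ 1)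
    (hχD : ∀ p, ‖fderiv ℝ χ p‖ ≤ D₁ * χ p ^ bb) (hχc : HasCompactSupport χ)
    (hχV : tsupport χ ⊆ V)
    (hs₀ : ContDiffOn ℝ ∞ s₀ V) (hs₀c : ∀ p ∈ V, extDeriv s₀ p = 0)
    (hb : ContDiffOn ℝ ∞ b (V \ k)) (hs : ContDiffOn ℝ ∞ s (V \ k))
    (hbs : ∀ p ∈ V \ k, extDeriv b p = s p - s₀ p)
    (hJ : ContinuousOn Js V) (hJH : ∀ p ∈ V, ∀ q ∈ V, ‖Js p - Js q‖ ≤ H * ‖p - q‖ ^ γ)
    (hpos : ∀ p ∈ V \ N, ∀ v : E d, c * ‖v‖ ^ 2 ≤ s p ![v, Js p v])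
    (hSB : ∀ p ∈ V \ N, ∀ v w : E d, (s p ![v, w]) ^ 2 ≤
      B * (s p ![v, Js p v] * s p ![w, Js p w])) :
    ∃ (b' : E d → Al d 1) (s' : E d → Al d 2) (c' : ℝ), 0 < c' ∧
      ContDiffOn ℝ ∞ b' (V \ (k ∩ {p | χ p = 0})) ∧
      ContDiffOn ℝ ∞ s' (V \ (k ∩ {p | χ p = 0})) ∧
      (∀ p ∈ V \ (k ∩ {p | χ p = 0}), extDeriv b' p = s' p - s₀ p) ∧
      (∀ p, χ p = 0 → b' p = b p) ∧ (∀ p, χ p = 0 → s' p = s p) ∧
      (∀ p ∈ V \ (N ∩ {p | χ p = 0}), ∀ v : E d, c' * ‖v‖ ^ 2 ≤ s' p ![v, Js p v]) ∧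
      (∀ p ∈ V \ (N ∩ {p | χ p = 0}), ∀ v w : E d, (s' p ![v, w]) ^ 2 ≤
        16 * B * (s' p ![v, Js p v] * s' p ![w, Js p w])) ∧
      (∀ p ∈ V, LPp b' (fun q => s' q - s₀ q) p) ∧ ∀ p ∈ V, Mor a s' p := by
  obtain ⟨r, hr, hrV⟩ := IsCompact.exists_cthickening_subset_open hχc hV hχV
  have hQ : IsCompact (Metric.cthickening r (tsupport χ)) := IsCompact.cthickening hχc
  have hGQ : Metric.thickening r (tsupport χ) ⊆ Metric.cthickening r (tsupport χ) :=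
    Metric.thickening_subset_cthickening _ _
  obtain ⟨A, hA0, hmoll⟩ := moll_bd (d := d)
  obtain ⟨ε₁, hε₁, h1⟩ := pairC hSM hHH hV hVk hLP hχ hχ0 hχc hχV hs₀ hs₀c hb hs hbs hrV hr hGQ
  obtain ⟨ε₂, hε₂, h2⟩ := posQ hc ha haγ hγ hab hB hH hD₁ hA0 (hnull' _ hQ hrV) hMor hχ hχ0 hχ1 hχD hχc
    hQ hrV hr hGQ (LPp.intOn hLP hs₀ hQ hrV) hJ hJH hpos hSB
  obtain ⟨ρ, hρ, hρA⟩ := hmoll (min ε₁ ε₂) (lt_min hε₁ hε₂)
  obtain ⟨b', s', g1, g2, g3, g4, g5, g6, g7⟩ := h1 _ (lt_min hε₁ hε₂) (min_le_left _ _) ρ hρ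
  obtain ⟨k1, k2⟩ := h2 _ (lt_min hε₁ hε₂) (min_le_right _ _) ρ hρ hρA
  refine ⟨b', s', c / 16, by positivity, g4, g5, g6, g1, g2, ?_, ?_, g7, k2 s' g2 g3⟩
  · intro p hp v
    rcases (hχ0 p).lt_or_eq with h0 | h0
    · rw [g3 p h0]
      exact (k1 p h0).1 v
    · have hpN : p ∈ V \ N := ⟨hp.1, fun h => hp.2 ⟨h, h0.symm⟩⟩
      rw [g2 p h0.symm]
      refine le_trans ?_ (hpos p hpN v)
      exact mul_le_mul_of_nonneg_right (by linarith) (sq_nonneg _)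
  · intro p hp v w
    rcases (hχ0 p).lt_or_eq with h0 | h0
    · rw [g3 p h0]
      exact (k1 p h0).2 v w
    · have hpN : p ∈ V \ N := ⟨hp.1, fun h => hp.2 ⟨h, h0.symm⟩⟩
      rw [g2 p h0.symm]
      refine (hSB p hpN v w).trans ?_
      have h2 : 0 ≤ s p ![v, Js p v] := le_trans (by positivity) (hpos p hpN v)
      have h3 : 0 ≤ s p ![w, Js p w] := le_trans (by positivity) (hpos p hpN w)
      have h4 : 0 ≤ B * (s p ![v, Js p v] * s p ![w, Js p w]) := by positivity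
      linarith

end Pool.Agent.U896.SQ
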