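import Pool.Agent.U896.SQ.RegQ

/-!
# Forms with a Cauchy-Schwarz bound: one step of the regularization on a manifold
-/

set_option autoImplicit false

open Set Filter Topology MeasureTheory
open scoped Manifold ContDiff ENNReal

noncomputable section

namespace Pool.Agent.U896.SQ

open Pool.Agent.Y501.SY
open Pool.Agent.U896.SW
open Pool.Agent.U896.SV

section

variable {d : ℕ} {X : Type} [TopologicalSpace X] [ChartedSpace (E d) X]

/-- the Cauchy-Schwarz bound off `N` -/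
def SB (J : End d X) (σ : Form d X 2) (N : Set X) : Prop :=
  ∃ B : ℝ, 0 < B ∧ ∀ x, x ∉ N → ∀ v w : TangentSpace (𝓡 d) x,
    (σ x ![v, w]) ^ 2 ≤ B * (σ x ![v, J x v] * σ x ![w, J x w])

theorem pb_two [IsManifold (𝓡 d) ∞ X] (σ : Form d X 2) (z : X) (p v w : E d) :
    pb (chartAt (E d) z).symm σ p ![v, w] =
      σ ((chartAt (E d) z).symm p) ![Pool.Agent.Y455.SY.A z p v, Pool.Agent.Y455.SY.A z p w] := by
  have h : pb (chartAt (E d) z).symm σ p ![v, w] =
      σ ((chartAt (E d) z).symm p) (fun i => Pool.Agent.Y455.SY.A z p (![v, w] i)) := rfl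
  rw [h]
  congr 1
  funext i
  fin_cases i <;> rfl

theorem stepQ {m : ℕ} {a γ : ℝ} (ha : 0 ≤ a) (haγ : a < 2 * γ) (hγ : γ ≤ 1) (had : a ≤ d)
    (hI : S_IMM) (hSm : S_SM) (hPa : S_PATCH2)
    [IsManifold (𝓡 d) ∞ X] [T2Space X] {F : X → E m} (hF : ContMDiff (𝓡 d) (𝓡 m) ∞ F)
    (hFi : ∀ x, Function.Injective (mfderiv (𝓡 d) (𝓡 m) F x)) {J : End d X}
    (hJ : IsAlmostComplex J) {A' : Set X} (hA : IsOpen A') {z : X} (hz : z ∈ A')
    (hHol : Hol γ J z) :
    ∃ W : Set X, IsOpen W ∧ z ∈ W ∧ ∀ (K N : Set X) (w : Form d X 2), IsClosed K → N ⊆ K →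
    NullX (d := d) N → UL F J a w K N → SB J w N →
      ∃ w' : Form d X 2, UL F J a w' (K \ W) (N \ W) ∧ SB J w' (N \ W) ∧
        ∀ x, x ∉ A' → w' x = w x := by
  -- the ball
  obtain ⟨rH, H, hrH, hH0, hHol'⟩ := hHol
  obtain ⟨r, hr, hrr, hball⟩ : ∃ r : ℝ, 0 < r ∧ r ≤ rH ∧
      ∀ p ∈ Metric.closedBall (chartAt (E d) z z) r,
      p ∈ (chartAt (E d) z).target ∧ (chartAt (E d) z).symm p ∈ A' := by
    have h1 : ContinuousAt (chartAt (E d) z).symm (chartAt (E d) z z) :=
      (chartAt (E d) z).continuousAt_symm (mem_chart_target (E d) z)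
    have h2 : (chartAt (E d) z).symm (chartAt (E d) z z) = z :=
      (chartAt (E d) z).left_inv (mem_chart_source (E d) z)
    have h3 : ∀ᶠ x in 𝓝 ((chartAt (E d) z).symm (chartAt (E d) z z)), x ∈ A' := by
      rw [h2]
      exact hA.mem_nhds hz
    have h4 := h1.eventually h3
    have h5 : ∀ᶠ p in 𝓝 (chartAt (E d) z z), p ∈ (chartAt (E d) z).target :=
      (chartAt (E d) z).open_target.mem_nhds (mem_chart_target (E d) z)
    obtain ⟨r, hr, h6⟩ := Metric.nhds_basis_closedBall.mem_iff.1 (h5.and h4)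
    refine ⟨min r rH, lt_min hr hrH, min_le_right _ _, fun p hp => ?_⟩
    have hp' := Metric.closedBall_subset_closedBall (min_le_left r rH) hp
    exact ⟨(h6 hp').1, (h6 hp').2⟩
  obtain ⟨p₀, hp₀⟩ : ∃ p₀, p₀ = chartAt (E d) z z := ⟨_, rfl⟩
  rw [← hp₀] at hball hHol'
  obtain ⟨e, he⟩ : ∃ e, e = chartAt (E d) z := ⟨_, rfl⟩
  have hzs : z ∈ e.source := by rw [he]; exact mem_chart_source (E d) z
  have hez : e z = p₀ := by rw [he, hp₀]
  have hVt : Metric.closedBall p₀ r ⊆ e.target := fun p hp => by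
    rw [he]; exact (hball p hp).1
  have hV : Metric.ball p₀ r ⊆ e.target := Metric.ball_subset_closedBall.trans hVt
  have hN : IsCompact (Metric.closedBall p₀ r) := isCompact_closedBall p₀ r
  obtain ⟨ci, Ci, hci, hCi, hnm⟩ := hI d m X F hF hFi z (Metric.closedBall p₀ r) hN
    (by rw [← he]; exact hVt)
  have hW : IsOpen (e.source ∩ e ⁻¹' Metric.ball p₀ (r / 2)) :=
    e.isOpen_inter_preimage Metric.isOpen_ball
  have hO : IsOpen (e.source ∩ e ⁻¹' Metric.ball p₀ r) :=
    e.isOpen_inter_preimage Metric.isOpen_ball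
  obtain ⟨W, hWd⟩ : ∃ W, W = e.source ∩ e ⁻¹' Metric.ball p₀ (r / 2) := ⟨_, rfl⟩
  obtain ⟨O, hOd⟩ : ∃ O, O = e.source ∩ e ⁻¹' Metric.ball p₀ r := ⟨_, rfl⟩
  rw [← hWd] at hW
  rw [← hOd] at hO
  have heO : e '' O = Metric.ball p₀ r := by
    apply Subset.antisymm
    · rintro _ ⟨x, hx, rfl⟩
      rw [hOd] at hx
      exact hx.2
    · intro p hp
      refine ⟨e.symm p, ?_, e.right_inv (hV hp)⟩
      rw [hOd]
      refine ⟨e.map_target (hV hp), ?_⟩
      rw [mem_preimage, e.right_inv (hV hp)]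
      exact hp
  have hOs : O ⊆ e.source := by rw [hOd]; exact inter_subset_left
  have hWO : W ⊆ O := by
    rw [hWd, hOd]
    exact inter_subset_inter_right _ (preimage_mono (Metric.ball_subset_ball (by linarith)))
  have hOA : O ⊆ A' := by
    intro x hx
    have h1 : e x ∈ Metric.ball p₀ r := by rw [hOd] at hx; exact hx.2
    have h2 := (hball (e x) (Metric.ball_subset_closedBall h1)).2
    rw [← he, e.left_inv (hOs hx)] at h2
    exact h2
  have hWs : ∀ p ∈ Metric.ball p₀ r, e.symm p ∈ W ↔ p ∈ Metric.ball p₀ (r / 2) := by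
    intro p hp
    rw [hWd]
    constructor
    · rintro ⟨_, h⟩
      rwa [mem_preimage, e.right_inv (hV hp)] at h
    · intro h
      refine ⟨e.map_target (hV hp), ?_⟩
      rwa [mem_preimage, e.right_inv (hV hp)]
  -- the cut-off function
  obtain ⟨φ, hφ⟩ : ∃ φ : ContDiffBump p₀, φ.rOut = r / 2 :=
    ⟨⟨r / 4, r / 2, by positivity, by linarith⟩, rfl⟩
  obtain ⟨χ, D₁, hD₁, hχs, hχnn, hχ1, hχcs, hχt, hχ0, hχD⟩ := bump_pow φ (a := a / 2) (by positivity) (by linarith)
  rw [hφ] at hχt hχ0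
  have htV : Metric.closedBall p₀ (r / 2) ⊆ Metric.ball p₀ r :=
    Metric.closedBall_subset_ball (by linarith)
  refine ⟨W, hW, ?_, ?_⟩
  · rw [hWd]
    refine ⟨hzs, ?_⟩
    rw [mem_preimage, hez]
    exact Metric.mem_ball_self (by linarith)
  intro K N w hK hNK hNull hUT hSBw
  obtain ⟨c₁, hc₁, hwc⟩ := hUT.pos
  obtain ⟨B₁, hB₁, hwB⟩ := hSBw
  obtain ⟨k, hk⟩ : ∃ k, k = Metric.ball p₀ r ∩ e.symm ⁻¹' K := ⟨_, rfl⟩
  have hVk : Metric.ball p₀ r \ k = Metric.ball p₀ r ∩ e.symm ⁻¹' Kᶜ := by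
    rw [hk]
    ext p
    simp only [Set.mem_sdiff, mem_inter_iff, mem_preimage, mem_compl_iff]
    tauto
  have hVko : IsOpen (Metric.ball p₀ r \ k) := by
    rw [hVk]
    have h1 : IsOpen (e.target ∩ e.symm ⁻¹' Kᶜ) := e.isOpen_inter_preimage_symm hK.isOpen_compl
    have h2 : Metric.ball p₀ r ∩ e.symm ⁻¹' Kᶜ = Metric.ball p₀ r ∩ (e.target ∩ e.symm ⁻¹' Kᶜ) := by
      rw [← inter_assoc, inter_eq_left.2 hV]
    rw [h2]
    exact Metric.isOpen_ball.inter h1
  have hsK : ∀ p ∈ Metric.ball p₀ r \ k, e.symm p ∉ K := by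
    intro p hp
    rw [hVk] at hp
    exact hp.2
  obtain ⟨n, hn⟩ : ∃ n, n = Metric.ball p₀ r ∩ e.symm ⁻¹' N := ⟨_, rfl⟩
  have hnk : n ⊆ k := by
    rw [hn, hk]
    exact inter_subset_inter_right _ (preimage_mono hNK)
  have hsN : ∀ p ∈ Metric.ball p₀ r \ n, e.symm p ∉ N := by
    intro p hp h
    rw [hn] at hp
    exact hp.2 ⟨hp.1, h⟩
  have hn0 : ∀ Q : Set (E d), IsCompact Q → Q ⊆ Metric.ball p₀ r → volume (n ∩ Q) = 0 := by
    intro Q _ _
    refine measure_mono_null ?_ (hNull z)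
    rintro p ⟨hpn, -⟩
    rw [hn] at hpn
    rw [← he]
    exact ⟨hV hpn.1, hpn.2⟩
  have hsymm : ContMDiffOn (𝓡 d) (𝓡 d) ∞ (chartAt (E d) z).symm (Metric.ball p₀ r) :=
    contMDiffOn_chart_symm.mono (by rw [← he]; exact hV)
  have hs1 : ContDiffOn ℝ ∞ (pb (chartAt (E d) z).symm w) (Metric.ball p₀ r \ k) :=
    hUT.smooth _ _ hVko (hsymm.mono sdiff_subset) (by rw [← he]; exact hsK)
  have hs2 : ∀ p ∈ Metric.ball p₀ r \ k, extDeriv (pb (chartAt (E d) z).symm w) p = 0 := by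
    intro p hp
    have h1 := hUT.closed _ _ hVko (hsymm.mono sdiff_subset) (by rw [← he]; exact hsK) p hp
    rw [h1, pb_zero]
    rfl
  have hs4 : ∀ p ∈ Metric.ball p₀ r \ n, ∀ v : E d,
      c₁ * ci ^ 2 * ‖v‖ ^ 2 ≤ pb (chartAt (E d) z).symm w p ![v, inChart J z p v] := by
    intro p hp v
    have hpc : p ∈ Metric.closedBall p₀ r := Metric.ball_subset_closedBall hp.1
    have hpK : (chartAt (E d) z).symm p ∉ N := by rw [← he]; exact hsN p hp
    have h0 := Pool.Agent.Y455.SY.Q_eq w J z (p := p) (by rw [← he]; exact hV hp.1) v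
    unfold Pool.Agent.Y455.SY.Q at h0
    rw [h0]
    refine le_trans ?_ (hwc ((chartAt (E d) z).symm p) hpK (Pool.Agent.Y455.SY.A z p v))
    have h1 : (ci * ‖v‖) ^ 2 ≤ nm F ((chartAt (E d) z).symm p)
        (Pool.Agent.Y455.SY.A z p v) ^ 2 := pow_le_pow_left₀ (by positivity) (hnm p hpc v).1 2
    calc c₁ * ci ^ 2 * ‖v‖ ^ 2 = c₁ * (ci * ‖v‖) ^ 2 := by ring
      _ ≤ _ := by gcongr
  have hs5 : ∀ p ∈ Metric.ball p₀ r \ n, ∀ v u : E d,
      (pb (chartAt (E d) z).symm w p ![v, u]) ^ 2 ≤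
        B₁ * (pb (chartAt (E d) z).symm w p ![v, inChart J z p v] *
          pb (chartAt (E d) z).symm w p ![u, inChart J z p u]) := by
    intro p hp v u
    have hpK : (chartAt (E d) z).symm p ∉ N := by rw [← he]; exact hsN p hp
    have hpt : p ∈ (chartAt (E d) z).target := by rw [← he]; exact hV hp.1
    have h0 := Pool.Agent.Y455.SY.Q_eq w J z hpt v
    have h1 := Pool.Agent.Y455.SY.Q_eq w J z hpt u
    unfold Pool.Agent.Y455.SY.Q at h0 h1
    rw [h0, h1, pb_two]
    exact hwB _ hpK _ _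
  have hJc : ContinuousOn (inChart J z) (Metric.ball p₀ r) := (hJ.cont z).mono (by
    rw [← he]; exact hV)
  obtain ⟨s', c', hc', g1, g2, g4, g5, g8, g6, g7⟩ := regQ hSm (V := Metric.ball p₀ r) (k := k) (N := n)
    (χ := χ) (s := pb (chartAt (E d) z).symm w) (Js := inChart J z) (c := c₁ * ci ^ 2) (a := a)
    (γ := γ) (b := a / 2) (B := B₁) (H := H) (D₁ := D₁) (by positivity) ha haγ hγ (by linarith)
    hB₁ hH0 hD₁
    Metric.isOpen_ball hVko hnk hn0 (fun p hp => hUT.lc z p (by rw [← he]; exact hV hp))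
    (fun p hp => hUT.mor z p (by rw [← he]; exact hV hp))
    hχs hχnn hχ1 hχD hχcs (by rw [hχt]; exact htV) hs1 hs2 hJc
    (fun p hp q hq => hHol' p (Metric.ball_subset_ball hrr hp) q (Metric.ball_subset_ball hrr hq))
    hs4 hs5
  -- the new singular set
  have hKW : IsClosed (K \ W) := by
    rw [sdiff_eq]
    exact hK.inter hW.isClosed_compl
  have hset : (chartAt (E d) z '' O) \ (chartAt (E d) z '' ((K \ W) ∩ O)) =
      Metric.ball p₀ r \ (k ∩ {p | χ p = 0}) := by
    rw [← he, heO]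
    ext p
    constructor
    · rintro ⟨hp, hn⟩
      refine ⟨hp, ?_⟩
      rintro ⟨h1, h2⟩
      apply hn
      rw [hk] at h1
      refine ⟨e.symm p, ⟨⟨h1.2, ?_⟩, ?_⟩, e.right_inv (hV hp)⟩
      · rw [hWs p hp]
        exact (hχ0 p).1 h2
      · rw [hOd]
        refine ⟨e.map_target (hV hp), ?_⟩
        rwa [mem_preimage, e.right_inv (hV hp)]
    · rintro ⟨hp, hn⟩
      refine ⟨hp, ?_⟩
      rintro ⟨x, ⟨⟨hxK, hxW⟩, hxO⟩, rfl⟩
      apply hn
      have hxs := hOs hxO
      refine ⟨?_, ?_⟩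
      · rw [hk]
        refine ⟨hp, ?_⟩
        change e.symm (e x) ∈ K
        rwa [e.left_inv hxs]
      · change χ (e x) = 0
        rw [hχ0, ← hWs _ hp, e.left_inv hxs]
        exact hxW
  obtain ⟨f1, f2, f3, f4⟩ := hPa d X z O K (K \ W) (Metric.closedBall p₀ (r / 2)) s' w hO
    (by rw [← he]; exact hOs) hKW sdiff_subset (isCompact_closedBall _ _)
    (by rw [← he, heO]; exact htV)
    (by
      intro x hx hx2
      have hxW : x ∈ W := by
        by_contra h
        exact hx2 ⟨hx, h⟩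
      refine ⟨hWO hxW, ?_⟩
      rw [← he]
      rw [hWd] at hxW
      exact Metric.ball_subset_closedBall hxW.2)
    (by rw [hset]; exact g1) (by rw [hset]; exact g2)
    (by
      intro p hp
      apply g4
      rw [hχ0]
      exact fun h => hp.2 (Metric.ball_subset_closedBall h))
    hUT.smooth hUT.closed
  have hout : ∀ x, x ∉ O → patch z O s' w x = w x := fun x hx => f3 x (Or.inl hx)
  have hin : ∀ x ∈ O, x ∉ N \ W → ∃ p ∈ Metric.ball p₀ r \ (n ∩ {p | χ p = 0}), e.symm p = x := by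
    intro x hx hx2
    have hxb : e x ∈ Metric.ball p₀ r := by
      rw [← heO]
      exact ⟨x, hx, rfl⟩
    refine ⟨e x, ⟨hxb, ?_⟩, e.left_inv (hOs hx)⟩
    rintro ⟨h1, h2⟩
    apply hx2
    rw [hn] at h1
    have h3 : e.symm (e x) ∈ N := h1.2
    rw [e.left_inv (hOs hx)] at h3
    refine ⟨h3, fun h4 => ?_⟩
    have h5 := (hχ0 (e x)).1 h2
    rw [← hWs _ hxb, e.left_inv (hOs hx)] at h5
    exact h5 h4
  -- the pointwise comparison in the chart
  have hloc : ∀ x ∈ O, x ∉ N \ W → ∀ v : TangentSpace (𝓡 d) x,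
      c' * Ci⁻¹ ^ 2 * nm F x v ^ 2 ≤ patch z O s' w x ![v, J x v] := by
    intro x hxO hx v
    obtain ⟨p, hp, rfl⟩ := hin x hxO hx
    have hpc : p ∈ Metric.closedBall p₀ r := Metric.ball_subset_closedBall hp.1
    have hpt : p ∈ (chartAt (E d) z).target := by rw [← he]; exact hV hp.1
    subst he
    have hv := Pool.Agent.Y455.SY.AB z hpt v
    obtain ⟨v', hv'⟩ : ∃ v', v' = Pool.Agent.Y455.SY.B z p v := ⟨_, rfl⟩
    rw [← hv'] at hv
    have hf4 := f4 p (by rw [heO]; exact hp.1)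
    have h0 := Pool.Agent.Y455.SY.Q_eq (patch z O s' w) J z hpt v'
    unfold Pool.Agent.Y455.SY.Q at h0
    rw [hv, hf4] at h0
    have hq := g5 p hp v'
    rw [h0] at hq
    have hv4 := (hnm p hpc v').2
    change nm F ((chartAt (E d) z).symm p) (Pool.Agent.Y455.SY.A z p v') ≤ Ci * ‖v'‖ at hv4
    rw [hv] at hv4
    have h6 : Ci⁻¹ * nm F ((chartAt (E d) z).symm p) v ≤ ‖v'‖ := by
      rw [inv_mul_eq_div, div_le_iff₀ hCi, mul_comm]
      exact hv4
    have n1 : 0 ≤ nm F ((chartAt (E d) z).symm p) v := norm_nonneg _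
    have h7 : (Ci⁻¹ * nm F ((chartAt (E d) z).symm p) v) ^ 2 ≤ ‖v'‖ ^ 2 :=
      pow_le_pow_left₀ (by positivity) h6 2
    refine le_trans ?_ hq
    calc c' * Ci⁻¹ ^ 2 * nm F ((chartAt (E d) z).symm p) v ^ 2
        = c' * (Ci⁻¹ * nm F ((chartAt (E d) z).symm p) v) ^ 2 := by ring
      _ ≤ c' * ‖v'‖ ^ 2 := by gcongr
  have hloc2 : ∀ x ∈ O, x ∉ N \ W → ∀ v u : TangentSpace (𝓡 d) x,
      (patch z O s' w x ![v, u]) ^ 2 ≤ 16 * B₁ *
        (patch z O s' w x ![v, J x v] * patch z O s' w x ![u, J x u]) := by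
    intro x hxO hx v u
    obtain ⟨p, hp, rfl⟩ := hin x hxO hx
    have hpt : p ∈ (chartAt (E d) z).target := by rw [← he]; exact hV hp.1
    subst he
    have hv := Pool.Agent.Y455.SY.AB z hpt v
    have hu := Pool.Agent.Y455.SY.AB z hpt u
    obtain ⟨v', hv'⟩ : ∃ v', v' = Pool.Agent.Y455.SY.B z p v := ⟨_, rfl⟩
    obtain ⟨u', hu'⟩ : ∃ u', u' = Pool.Agent.Y455.SY.B z p u := ⟨_, rfl⟩
    rw [← hv'] at hv
    rw [← hu'] at hu
    have hf4 := f4 p (by rw [heO]; exact hp.1)
    have h0 := Pool.Agent.Y455.SY.Q_eq (patch z O s' w) J z hpt v'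
    have h1 := Pool.Agent.Y455.SY.Q_eq (patch z O s' w) J z hpt u'
    have h2 := pb_two (patch z O s' w) z p v' u'
    unfold Pool.Agent.Y455.SY.Q at h0 h1
    rw [hv, hf4] at h0
    rw [hu, hf4] at h1
    rw [hv, hu, hf4] at h2
    have hq := g8 p hp v' u'
    rw [h0, h1, h2] at hq
    exact hq
  have hlc : ∀ z₂ : X, ∀ p ∈ (chartAt (E d) z₂).target,
      LCn (pb (chartAt (E d) z₂).symm (patch z O s' w)) p := by
    intro z₂ p hp
    by_cases hx : (chartAt (E d) z₂).symm p ∈ O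
    · have hxb : e ((chartAt (E d) z₂).symm p) ∈ Metric.ball p₀ r := by
        rw [← heO]
        exact ⟨_, hx, rfl⟩
      have h1 : LCn (pb (chartAt (E d) z).symm (patch z O s' w))
          (e ((chartAt (E d) z₂).symm p)) := by
        obtain ⟨R, hR, hL⟩ := g6 _ hxb
        obtain ⟨R', hR', hRb⟩ := Metric.isOpen_iff.1 Metric.isOpen_ball _ hxb
        refine ⟨min R R', lt_min hR hR', LCl.congr Metric.isOpen_ball
          (hL.mono (Metric.ball_subset_ball (min_le_left _ _))) fun q hq => ?_⟩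
        apply f4
        rw [← he, heO]
        exact hRb (Metric.ball_subset_ball (min_le_right _ _) hq)
      refine LCn.trans (p₁ := e ((chartAt (E d) z₂).symm p)) ?_ hp ?_ h1
      · rw [← he]
        exact hV hxb
      · rw [← he]
        exact e.left_inv (hOs hx)
    · obtain ⟨R, hR, hL⟩ := hUT.lc z₂ p hp
      have hcl : IsClosed (e.symm '' Metric.closedBall p₀ (r / 2)) :=
        ((isCompact_closedBall p₀ (r / 2)).image_of_continuousOn
          (e.continuousOn_symm.mono (htV.trans hV))).isClosed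
      have hsub : e.symm '' Metric.closedBall p₀ (r / 2) ⊆ O := by
        rintro _ ⟨q, hq, rfl⟩
        rw [hOd]
        refine ⟨e.map_target (hV (htV hq)), ?_⟩
        rw [mem_preimage, e.right_inv (hV (htV hq))]
        exact htV hq
      have h1 : ∀ᶠ q in 𝓝 p, (chartAt (E d) z₂).symm q ∉ e.symm '' Metric.closedBall p₀ (r / 2) := by
        have h2 : ContinuousAt (chartAt (E d) z₂).symm p := (chartAt (E d) z₂).continuousAt_symm hp
        exact h2.eventually (hcl.isOpen_compl.mem_nhds fun h => hx (hsub h))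
      obtain ⟨R', hR', hRb⟩ := Metric.eventually_nhds_iff_ball.1 h1
      refine ⟨min R R', lt_min hR hR', LCl.congr Metric.isOpen_ball
        (hL.mono (Metric.ball_subset_ball (min_le_left _ _))) fun q hq => ?_⟩
      have hq' := hRb q (Metric.ball_subset_ball (min_le_right _ _) hq)
      apply pb_val
      by_cases hqO : (chartAt (E d) z₂).symm q ∈ O
      · refine f3 _ (Or.inr ?_)
        rw [← he]
        intro h
        apply hq'
        exact ⟨_, h, e.left_inv (hOs hqO)⟩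
      · exact hout _ hqO
  have hmr : ∀ z₂ : X, ∀ p ∈ (chartAt (E d) z₂).target,
      Mor a (pb (chartAt (E d) z₂).symm (patch z O s' w)) p := by
    intro z₂ p hp
    by_cases hx : (chartAt (E d) z₂).symm p ∈ O
    · have hxb : e ((chartAt (E d) z₂).symm p) ∈ Metric.ball p₀ r := by
        rw [← heO]
        exact ⟨_, hx, rfl⟩
      have h1 : Mor a (pb (chartAt (E d) z).symm (patch z O s' w))
          (e ((chartAt (E d) z₂).symm p)) := by
        obtain ⟨R', hR', hRb⟩ := Metric.isOpen_iff.1 Metric.isOpen_ball _ hxb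
        refine (g7 _ hxb).congr hR' fun q hq => ?_
        apply f4
        rw [← he, heO]
        exact hRb hq
      refine Mor.trans had (p₁ := e ((chartAt (E d) z₂).symm p)) ?_ hp ?_ h1
      · rw [← he]
        exact hV hxb
      · rw [← he]
        exact e.left_inv (hOs hx)
    · have hcl : IsClosed (e.symm '' Metric.closedBall p₀ (r / 2)) :=
        ((isCompact_closedBall p₀ (r / 2)).image_of_continuousOn
          (e.continuousOn_symm.mono (htV.trans hV))).isClosed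
      have hsub : e.symm '' Metric.closedBall p₀ (r / 2) ⊆ O := by
        rintro _ ⟨q, hq, rfl⟩
        rw [hOd]
        refine ⟨e.map_target (hV (htV hq)), ?_⟩
        rw [mem_preimage, e.right_inv (hV (htV hq))]
        exact htV hq
      have h1 : ∀ᶠ q in 𝓝 p, (chartAt (E d) z₂).symm q ∉ e.symm '' Metric.closedBall p₀ (r / 2) := by
        have h2 : ContinuousAt (chartAt (E d) z₂).symm p := (chartAt (E d) z₂).continuousAt_symm hp
        exact h2.eventually (hcl.isOpen_compl.mem_nhds fun h => hx (hsub h))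
      obtain ⟨R', hR', hRb⟩ := Metric.eventually_nhds_iff_ball.1 h1
      refine (hUT.mor z₂ p hp).congr hR' fun q hq => ?_
      have hq' := hRb q hq
      apply pb_val
      by_cases hqO : (chartAt (E d) z₂).symm q ∈ O
      · refine f3 _ (Or.inr ?_)
        rw [← he]
        intro h
        apply hq'
        exact ⟨_, h, e.left_inv (hOs hqO)⟩
      · exact hout _ hqO
  refine ⟨patch z O s' w, ⟨f1, f2, hlc, hmr, ?_⟩, ?_, fun x hx => hout x fun h => hx (hOA h)⟩
  · refine ⟨min c₁ (c' * Ci⁻¹ ^ 2), lt_min hc₁ (by positivity), ?_⟩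
    intro x hx v
    by_cases hxO : x ∈ O
    · refine le_trans ?_ (hloc x hxO hx v)
      have := min_le_right c₁ (c' * Ci⁻¹ ^ 2)
      gcongr
    · rw [hout x hxO]
      have hxK : x ∉ N := fun h => hx ⟨h, fun h' => hxO (hWO h')⟩
      refine le_trans ?_ (hwc x hxK v)
      have := min_le_left c₁ (c' * Ci⁻¹ ^ 2)
      gcongr
  · refine ⟨16 * B₁, by positivity, ?_⟩
    intro x hx v u
    by_cases hxO : x ∈ O
    · exact hloc2 x hxO hx v u
    · rw [hout x hxO]
      have hxK : x ∉ N := fun h => hx ⟨h, fun h' => hxO (hWO h')⟩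
      refine (hwB x hxK v u).trans ?_
      have h1 : 0 ≤ w x ![v, J x v] := le_trans (by positivity) (hwc x hxK v)
      have h2 : 0 ≤ w x ![u, J x u] := le_trans (by positivity) (hwc x hxK u)
      have h3 : 0 ≤ B₁ * (w x ![v, J x v] * w x ![u, J x u]) := by positivity
      linarith

end

end Pool.Agent.U896.SQ
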