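import Pool.Agent.U896.SQ.GlobQ

/-!
# Forms with a Cauchy-Schwarz bound: the main theorem
-/

set_option autoImplicit false

open Set Filter Topology MeasureTheory
open scoped Manifold ContDiff ENNReal

noncomputable section

namespace Pool.Agent.U896.SQ

open Pool.Agent.Y501.SY
open Pool.Agent.U896.SW
open Pool.Agent.U896.SV

section

variable {d : ℕ} {X : Type} [TopologicalSpace X] [ChartedSpace (E d) X] [IsManifold (𝓡 d) ∞ X]

theorem bdd_off {σ : Form d X 2} {K : Set X} (N : Set X) (hK : IsClosed K) (hσ : SmoothOff σ K)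
    {z : X} (hz : z ∉ K) : BddAt σ N z := by
  obtain ⟨O, hO⟩ : ∃ O, O = (chartAt (E d) z).target ∩ (chartAt (E d) z).symm ⁻¹' Kᶜ := ⟨_, rfl⟩
  have hOo : IsOpen O := by
    rw [hO]
    exact (chartAt (E d) z).isOpen_inter_preimage_symm hK.isOpen_compl
  have hp : chartAt (E d) z z ∈ O := by
    rw [hO]
    refine ⟨mem_chart_target (E d) z, ?_⟩
    rw [mem_preimage, (chartAt (E d) z).left_inv (mem_chart_source (E d) z)]
    exact hz
  have h1 : ContinuousOn (pb (chartAt (E d) z).symm σ) O := by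
    refine (hσ O (chartAt (E d) z).symm hOo (contMDiffOn_chart_symm.mono ?_) ?_).continuousOn
    · rw [hO]
      exact inter_subset_left
    · intro p hpO
      rw [hO] at hpO
      exact hpO.2
  have h2 : ContinuousAt (fun p => ‖pb (chartAt (E d) z).symm σ p‖) (chartAt (E d) z z) :=
    ((h1 _ hp).continuousAt (hOo.mem_nhds hp)).norm
  refine ⟨‖pb (chartAt (E d) z).symm σ (chartAt (E d) z z)‖ + 1, ?_⟩
  filter_upwards [h2.eventually_lt_const (lt_add_one _)] with p hp _
  exact hp.le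

theorem mainQ {a γ : ℝ} (ha : 0 ≤ a) (haγ : a < 2 * γ) (hγ : γ ≤ 1)
    (hd : 2 ≤ d)
    (hI : S_IMM) (hQ : S_QB) (hSm : S_SM)
    (hPa : S_PATCH2) [CompactSpace X] [T2Space X] {J : End d X} (hJ : IsAlmostComplex J)
    {K N : Set X} (hK : IsClosed K) (hNK : N ⊆ K) (hN : NullX (d := d) N)
    {σ : Form d X 2} (hσ : SmoothOff σ K) (hσc : IsDOff σ 0 K)
    (hL : ∀ z : X, ∀ p ∈ (chartAt (E d) z).target, LCn (pb (chartAt (E d) z).symm σ) p)
    (hM : ∀ z : X, ∀ p ∈ (chartAt (E d) z).target, Mor a (pb (chartAt (E d) z).symm σ) p)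
    (hHol : ∀ z ∈ K, Hol γ J z) (hSB : ∀ z ∈ K, SBn J σ N z)
    (hpos : ∀ x, x ∉ N → ∀ v : TangentSpace (𝓡 d) x, 0 ≤ σ x ![v, J x v])
    (hthin : ∀ z, ¬ UTAt σ J N z →
      ThinAt2 0 0 J (connectedComponentIn {x | ¬ UTAt σ J N x} z) z)
    {U : Set X} (hU : IsOpen U) (hKU : K ⊆ U) :
    ∃ (α : Form d X 1) (η w : Form d X 2), IsSmooth α ∧ IsSmooth η ∧ IsD α η ∧ IsSmooth w ∧
      IsClosedForm w ∧ (∀ x, TamesAt w J x) ∧ ∀ x, x ∉ U → w x = (σ + η) x := by
  classical
  have had : a ≤ d := by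
    have : (2 : ℝ) ≤ d := by exact_mod_cast hd
    linarith
  obtain ⟨m, F, hF, -, hFi⟩ := exists_embedding_euclidean_of_compact (I := 𝓡 d) (M := X)
  have hFc : IsClosed {x | ¬ UTAt σ J N x} :=
    (isOpen_UTAt hI hF hFi σ J N).isClosed_compl
  have hne : ∃ v : E d, v ≠ 0 := by
    have : Nontrivial (E d) := by
      have : Nonempty (Fin d) := ⟨⟨0, by omega⟩⟩
      infer_instance
    exact exists_ne 0
  have hD2 : D2 (0 : Form d X 2) 0 J {x | ¬ UTAt σ J N x} = {x | ¬ UTAt σ J N x} := by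
    apply Subset.antisymm
    · exact fun x hx => hx.1
    · intro x hx
      obtain ⟨v, hv⟩ := hne
      exact ⟨hx, v, hv, rfl, rfl⟩
  obtain ⟨α, η, hpair, hη⟩ := level2 Pool.Agent.Y484.SY.t_GEN Pool.Agent.Y108.SY.t_PERT2
    Pool.Agent.Y925.SY.t_PLANAR hJ (σ := 0) (θ := 0) IsSmooth.zero IsSmooth.zero hFc (by
      rw [hD2]
      exact hthin)
  obtain ⟨hα, hηs, hαη, hηc⟩ := hpair.props Pool.Agent.Y484.SY.t_GEN
  obtain ⟨s, hs, hUT⟩ := globL ha hI hQ F hF hFi J hJ σ η K N hσ hσc hL hM hηs hηc hpos (by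
    intro x
    by_cases h : UTAt σ J N x
    · exact Or.inl h
    · exact Or.inr fun v hv => hη x h v hv rfl rfl)
  have hSBτ : SB J (σ + s • η) N := by
    obtain ⟨c, hc, hcp⟩ := hUT.pos
    refine sb_glob (fun x hx v => le_trans (by positivity) (hcp x hx v)) fun x => ?_
    refine sb_add hI hQ F hF hFi J hJ σ η N hηs hpos hs hc hcp x ?_
    by_cases hx : x ∈ K
    · exact Or.inl (hSB x hx)
    · exact Or.inr (bdd_off N hK hσ hx)
  -- the regularization
  choose! W hWo hWz hW using fun z (hz : z ∈ K) =>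
    stepQ (X := X) ha haγ hγ had hI hSm hPa hF hFi hJ hU (hKU hz) (hHol z hz)
  have hfin : ∀ t : Finset X, (∀ z ∈ t, z ∈ K) → ∃ w : Form d X 2,
      UL F J a w (K \ ⋃ z ∈ t, W z) (N \ ⋃ z ∈ t, W z) ∧ SB J w (N \ ⋃ z ∈ t, W z) ∧
        ∀ x, x ∉ U → w x = (σ + s • η) x := by
    intro t
    induction t using Finset.induction_on with
    | empty =>
      intro _
      have : K \ ⋃ z ∈ (∅ : Finset X), W z = K := by simp
      have h2 : N \ ⋃ z ∈ (∅ : Finset X), W z = N := by simp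
      refine ⟨σ + s • η, ?_, ?_, fun x _ => rfl⟩
      · rw [this, h2]
        exact hUT
      · rw [h2]
        exact hSBτ
    | insert a t ha ih =>
      intro ht
      obtain ⟨w, hw, hwS, hwU⟩ := ih fun z hz => ht z (Finset.mem_insert_of_mem hz)
      have hop : IsOpen (⋃ z ∈ t, W z) :=
        isOpen_biUnion fun z hz => hWo z (ht z (Finset.mem_insert_of_mem hz))
      have hcl : IsClosed (K \ ⋃ z ∈ t, W z) := by
        rw [sdiff_eq]
        exact hK.inter hop.isClosed_compl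
      obtain ⟨w', hw', hwS', hwU'⟩ := hW a (ht a (Finset.mem_insert_self a t)) _ _ w hcl
        (sdiff_subset_sdiff_left hNK)
        (fun x₀ => measure_mono_null (inter_subset_inter_right _ (preimage_mono sdiff_subset))
          (hN x₀)) hw hwS
      have h1 : ∀ S : Set X, S \ ⋃ z ∈ insert a t, W z = (S \ ⋃ z ∈ t, W z) \ W a := by
        intro S
        rw [Finset.set_biUnion_insert, union_comm, sdiff_sdiff_left]
        rfl
      refine ⟨w', ?_, ?_, fun x hx => (hwU' x hx).trans (hwU x hx)⟩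
      · rw [h1, h1]
        exact hw'
      · rw [h1]
        exact hwS'
  obtain ⟨t, htK, htc⟩ := hK.isCompact.elim_nhds_subcover W
    (fun z hz => (hWo z hz).mem_nhds (hWz z hz))
  obtain ⟨w, hw, -, hwU⟩ := hfin t htK
  have hempty : K \ ⋃ z ∈ t, W z = ∅ := by
    rw [sdiff_eq_empty]
    exact htc
  have hempty' : N \ ⋃ z ∈ t, W z = ∅ := by
    rw [← subset_empty_iff, ← hempty]
    exact sdiff_subset_sdiff_left hNK
  rw [hempty, hempty'] at hw
  obtain ⟨c, hc, hwc⟩ := hw.pos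
  refine ⟨s • α, s • η, w, hα.smul s, hηs.smul s, hαη.smul s,
    fun V φ hV hφ => hw.smooth V φ hV hφ fun p _ => notMem_empty _,
    fun V φ hV hφ => hw.closed V φ hV hφ fun p _ => notMem_empty _, fun x v hv => ?_, hwU⟩
  refine lt_of_lt_of_le ?_ (hwc x (notMem_empty _) v)
  have h1 : 0 < nm F x v := by
    refine lt_of_le_of_ne (norm_nonneg _) fun h => hv ?_
    have h2 : (mfderiv (𝓡 d) (𝓡 m) F x v : E m) = 0 := norm_eq_zero.1 h.symm
    apply hFi x
    rw [map_zero]
    exact h2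
  positivity

end

end Pool.Agent.U896.SQ
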