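import Pool.Agent.U896.SQ.L2Q
import Pool.Agent.U896.SQ.MainQ
import Pool.Agent.U896.SC.L3

/-!
# Forms with a Cauchy-Schwarz bound in a prescribed class: the main theorem
-/

set_option autoImplicit false

open Set Filter Topology MeasureTheory
open scoped Manifold ContDiff ENNReal

noncomputable section

namespace Pool.Agent.U896.SQ

open Pool.Agent.Y501.SY
open Pool.Agent.U896.SE (EccAt)
open Pool.Agent.U896.SW
open Pool.Agent.U896.SV (Mor Hol globL)
open Pool.Agent.U896.SC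

section

variable {d : ℕ} {X : Type} [TopologicalSpace X] [ChartedSpace (E d) X] [IsManifold (𝓡 d) ∞ X]

theorem mainCQ {a γ : ℝ} (ha0 : 0 ≤ a) (haγ : a < 2 * γ) (hγ : γ ≤ 1) (hd : 2 ≤ d)
    (hI : S_IMM) (hQ : S_QB) (hSm : S_SM) (hHH : S_HH)
    (hPa : S_PATCH2) (hPp : S_PATCHP) [CompactSpace X] [T2Space X] {J : End d X}
    (hJ : IsAlmostComplex J)
    {K N : Set X} (hK : IsClosed K) (hNK : N ⊆ K) (hN : NullX (d := d) N)
    {σ₀ : Form d X 2} (hσ₀ : IsSmooth σ₀) (hσ₀c : IsClosedForm σ₀) {β : Form d X 1}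
    {σ : Form d X 2} (hβ : SmoothOff β K) (hσ : SmoothOff σ K) (hβσ : IsDOff β (σ - σ₀) K)
    (hlp : ∀ z : X, ∀ p ∈ (chartAt (E d) z).target,
      LPp (pb (chartAt (E d) z).symm β) (pb (chartAt (E d) z).symm (σ - σ₀)) p)
    (hM : ∀ z : X, ∀ p ∈ (chartAt (E d) z).target, Mor a (pb (chartAt (E d) z).symm σ) p)
    (hHol : ∀ z, Hol γ J z) (hSB : ∀ z ∈ K, SBn J σ N z)
    (hpos : ∀ x, x ∉ N → ∀ v : TangentSpace (𝓡 d) x, 0 ≤ σ x ![v, J x v])
    (hthin : ∀ z, ¬ UTAt σ J N z →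
      ThinAt2 0 0 J (connectedComponentIn {x | ¬ UTAt σ J N x} z) z) :
    ∃ (α : Form d X 1) (ρ : Form d X 2), IsSmooth α ∧ IsSmooth ρ ∧ IsD α ρ ∧
      IsClosedForm (σ₀ + ρ) ∧ ∀ x, TamesAt (σ₀ + ρ) J x := by
  classical
  have had : a ≤ d := by
    have : (2 : ℝ) ≤ d := by exact_mod_cast hd
    linarith
  obtain ⟨m, F, hF, -, hFi⟩ := exists_embedding_euclidean_of_compact (I := 𝓡 d) (M := X)
  have hσc : IsDOff σ 0 K := closedOff_of hσ₀ hσ₀c hβ hβσ
  have hFc : IsClosed {x | ¬ UTAt σ J N x} :=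
    (isOpen_UTAt hI hF hFi σ J N).isClosed_compl
  have hne : ∃ v : E d, v ≠ 0 := by
    have : Nontrivial (E d) := by
      have : Nonempty (Fin d) := ⟨⟨0, by omega⟩⟩
      infer_instance
    exact exists_ne 0
  have hD2 : D2 (0 : Form d X 2) 0 J {x | ¬ UTAt σ J N x} = {x | ¬ UTAt σ J N x} := by
    apply Subset.antisymm
    · exact fun x hx => hx.1
    · intro x hx
      obtain ⟨v, hv⟩ := hne
      exact ⟨hx, v, hv, rfl, rfl⟩
  obtain ⟨α, η, hpair, hη⟩ := level2 Pool.Agent.Y484.SY.t_GEN Pool.Agent.Y108.SY.t_PERT2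
    Pool.Agent.Y925.SY.t_PLANAR hJ (σ := 0) (θ := 0) IsSmooth.zero IsSmooth.zero hFc (by
      rw [hD2]
      exact hthin)
  obtain ⟨hα, hηs, hαη, hηc⟩ := hpair.props Pool.Agent.Y484.SY.t_GEN
  have hLC : ∀ z : X, ∀ p ∈ (chartAt (E d) z).target, LCn (pb (chartAt (E d) z).symm σ) p := by
    intro z p hp
    obtain ⟨h1, h2⟩ := closed_chart hσ₀ hσ₀c z
    exact LPp.toLCn (chartAt (E d) z).open_target hp (hlp z p hp) h1 h2
  obtain ⟨s, hs, hUT⟩ := globL ha0 hI hQ F hF hFi J hJ σ η K N hσ hσc hLC hM hηs hηc hpos (by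
    intro x
    by_cases h : UTAt σ J N x
    · exact Or.inl h
    · exact Or.inr fun v hv => hη x h v hv rfl rfl)
  obtain ⟨k1, k2, k3⟩ := startC hβ hβσ hlp hα hηs hαη s
  have hstart : UCL F J a σ₀ (β + s • α) (σ + s • η) K N :=
    ⟨k1, hUT.smooth, k2, k3, hUT.mor, hUT.pos⟩
  have hSBτ : SB J (σ + s • η) N := by
    obtain ⟨c, hc, hcp⟩ := hUT.pos
    refine sb_glob (fun x hx v => le_trans (by positivity) (hcp x hx v)) fun x => ?_
    refine sb_add hI hQ F hF hFi J hJ σ η N hηs hpos hs hc hcp x ?_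
    by_cases hx : x ∈ K
    · exact Or.inl (hSB x hx)
    · exact Or.inr (bdd_off N hK hσ hx)
  -- the regularization
  choose W hWo hWz hW using fun z : X =>
    stepCQ (X := X) ha0 haγ hγ had hI hSm hHH hPa hPp hF hFi hJ hσ₀ hσ₀c (hHol z)
  have hfin : ∀ t : Finset X, ∃ (β' : Form d X 1) (w : Form d X 2),
      UCL F J a σ₀ β' w (K \ ⋃ z ∈ t, W z) (N \ ⋃ z ∈ t, W z) ∧
        SB J w (N \ ⋃ z ∈ t, W z) := by
    intro t
    induction t using Finset.induction_on with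
    | empty =>
      have : K \ ⋃ z ∈ (∅ : Finset X), W z = K := by simp
      have h2 : N \ ⋃ z ∈ (∅ : Finset X), W z = N := by simp
      refine ⟨β + s • α, σ + s • η, ?_, ?_⟩
      · rw [this, h2]
        exact hstart
      · rw [h2]
        exact hSBτ
    | insert y t _ ih =>
      obtain ⟨β', w, hw, hwS⟩ := ih
      have hop : IsOpen (⋃ z ∈ t, W z) := isOpen_biUnion fun z _ => hWo z
      have hcl : IsClosed (K \ ⋃ z ∈ t, W z) := by
        rw [sdiff_eq]
        exact hK.inter hop.isClosed_compl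
      obtain ⟨β'', w', hw', hwS'⟩ := hW y _ _ β' w hcl
        (sdiff_subset_sdiff_left hNK)
        (fun x₀ => measure_mono_null (inter_subset_inter_right _ (preimage_mono sdiff_subset))
          (hN x₀)) hw hwS
      have h1 : ∀ S : Set X, S \ ⋃ z ∈ insert y t, W z = (S \ ⋃ z ∈ t, W z) \ W y := by
        intro S
        rw [Finset.set_biUnion_insert, union_comm, sdiff_sdiff_left]
        rfl
      refine ⟨β'', w', ?_, ?_⟩
      · rw [h1, h1]
        exact hw'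
      · rw [h1]
        exact hwS'
  obtain ⟨t, -, htc⟩ := hK.isCompact.elim_nhds_subcover W
    (fun z _ => (hWo z).mem_nhds (hWz z))
  obtain ⟨β', w, hw, -⟩ := hfin t
  have hempty : K \ ⋃ z ∈ t, W z = ∅ := by
    rw [sdiff_eq_empty]
    exact htc
  have hempty' : N \ ⋃ z ∈ t, W z = ∅ := by
    rw [← subset_empty_iff, ← hempty]
    exact sdiff_subset_sdiff_left hNK
  rw [hempty, hempty'] at hw
  exact ⟨β', w - σ₀, endC hFi hσ₀ hσ₀c hw.smβ hw.smooth hw.isD hw.pos⟩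

end

end Pool.Agent.U896.SQ
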